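import Pool.Agent.P.MP_a7d87e_pr.Spec

namespace Pool.Agent.P.MP_a7d87e_pr

open Finset MeasureTheory ProbabilityTheory Filter
open scoped ENNReal Topology

instance : IsProbabilityMeasure (expMeasure 1) := isProbabilityMeasure_expMeasure one_pos

/-- law of the waiting times of one clock -/
noncomputable def kap : Measure (ℕ → ℝ) := Measure.infinitePi fun _ : ℕ => expMeasure 1

instance : IsProbabilityMeasure kap := by unfold kap; infer_instance

/-- ring times of one clock -/
def rg (τ : ℕ → ℝ) (k : ℕ) : ℝ := ∑ j ∈ range (k + 1), τ j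

lemma measurable_rg (k : ℕ) : Measurable fun τ => rg τ k := by unfold rg; fun_prop

lemma exp_le_volume {S : Set ℝ} (hS : MeasurableSet S) : expMeasure 1 S ≤ volume S := by
  unfold expMeasure gammaMeasure
  rw [withDensity_apply _ hS]
  calc ∫⁻ x in S, gammaPDF 1 1 x ≤ ∫⁻ _x in S, 1 := by
        refine lintegral_mono fun x => ?_
        change exponentialPDF 1 x ≤ 1
        rw [exponentialPDF_eq, ENNReal.ofReal_le_one]
        split_ifs with h
        · simpa using h
        · exact zero_le_one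
    _ = volume S := by simp

lemma exp_pos_ae : ∀ᵐ x ∂expMeasure 1, 0 < x := by
  have h := cdf_expMeasure_eq one_pos 0
  rw [cdf_eq_real] at h
  simp only [le_refl, if_true, mul_zero, neg_zero, Real.exp_zero, sub_self] at h
  rw [ae_iff]
  have : {a : ℝ | ¬ 0 < a} = Set.Iic 0 := by ext; simp
  rw [this]
  exact (measureReal_eq_zero_iff (measure_ne_top _ _)).1 h

lemma kap_pos : ∀ᵐ τ ∂kap, ∀ j, 0 < τ j :=
  ae_all_iff.2 fun j =>
    (measurePreserving_eval_infinitePi (fun _ : ℕ => expMeasure 1) j).quasiMeasurePreserving.ae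
      exp_pos_ae

lemma kap_indep : iIndepFun (fun j (τ : ℕ → ℝ) => τ j) kap :=
  iIndepFun_infinitePi (P := fun _ : ℕ => expMeasure 1) (X := fun _ e => e) fun _ => measurable_id

lemma kap_rg_le (k : ℕ) {S : Set ℝ} (hS : MeasurableSet S) :
    kap {τ | rg τ k ∈ S} ≤ volume S := by
  have hi := kap_indep.indepFun_sum_range_succ (fun i => measurable_pi_apply i) k
  have hm : Measurable (∑ j ∈ range k, fun τ : ℕ → ℝ => τ j) := by
    rw [show (∑ j ∈ range k, fun τ : ℕ → ℝ => τ j) = fun τ => ∑ j ∈ range k, τ j by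
      funext τ; simp]
    fun_prop
  have h1 := hi.map_prod_eq_prod_map_map hm.aemeasurable (measurable_pi_apply k).aemeasurable
  have hT : MeasurableSet {p : ℝ × ℝ | p.1 + p.2 ∈ S} := measurable_add hS
  have h2 : {τ | rg τ k ∈ S} =
      (fun τ : ℕ → ℝ => ((∑ j ∈ range k, fun τ : ℕ → ℝ => τ j) τ, τ k)) ⁻¹'
        {p : ℝ × ℝ | p.1 + p.2 ∈ S} := by
    ext τ; simp [rg, sum_range_succ]
  have h3 : kap.map (fun τ => τ k) = expMeasure 1 :=
    Measure.infinitePi_map_eval (fun _ : ℕ => expMeasure 1) k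
  have := Measure.isProbabilityMeasure_map (μ := kap) hm.aemeasurable
  rw [h2, ← Measure.map_apply (hm.prodMk (measurable_pi_apply k)) hT, h1, h3,
    Measure.prod_apply hT]
  calc _ ≤ ∫⁻ _x, volume S ∂(kap.map (∑ j ∈ range k, fun τ : ℕ → ℝ => τ j)) := by
        refine lintegral_mono fun x => ?_
        have : Prod.mk x ⁻¹' {p : ℝ × ℝ | p.1 + p.2 ∈ S} = (fun y => x + y) ⁻¹' S := rfl
        rw [this]
        refine (exp_le_volume (measurable_const_add x hS)).trans ?_
        rw [measure_preimage_add]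
    _ = volume S := by simp

lemma kap_tail (t : ℝ) : ∑' k, kap {τ | rg τ k < t} ≠ ∞ := by
  set r : ℝ≥0∞ := ∫⁻ x, ENNReal.ofReal (Real.exp (-x)) ∂expMeasure 1 with hr
  have hlt : ∀ᵐ x ∂expMeasure 1, ENNReal.ofReal (Real.exp (-x)) < 1 := by
    filter_upwards [exp_pos_ae] with x hx
    rw [ENNReal.ofReal_lt_one, Real.exp_lt_one_iff]; linarith
  have hr1 : r < 1 := by
    have h1 : r ≤ ∫⁻ _x, 1 ∂expMeasure 1 := lintegral_mono_ae (hlt.mono fun x hx => hx.le)
    have h2 := lintegral_strict_mono (μ := expMeasure 1) (IsProbabilityMeasure.ne_zero _)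
      (g := fun _ => 1) aemeasurable_const (ne_top_of_le_ne_top (by simp) h1) hlt
    simpa using h2
  have hb : ∀ k, kap {τ | rg τ k < t} ≤ ENNReal.ofReal (Real.exp t) * r ^ k := by
    intro k
    have hi : iIndepFun (fun j (τ : ℕ → ℝ) => ENNReal.ofReal (Real.exp (-τ j))) kap :=
      kap_indep.comp (fun _ x => ENNReal.ofReal (Real.exp (-x))) (fun _ => by fun_prop)
    have h1 := lintegral_prod_eq_prod_lintegral_of_indepFun (range (k + 1)) _ hi
      (fun _ => by fun_prop)
    have h2 : ∀ j, ∫⁻ τ, ENNReal.ofReal (Real.exp (-τ j)) ∂kap = r := fun j =>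
      (measurePreserving_eval_infinitePi (fun _ : ℕ => expMeasure 1) j).lintegral_comp
        (f := fun x => ENNReal.ofReal (Real.exp (-x))) (by fun_prop)
    simp only [h2, prod_const, card_range] at h1
    have hS : MeasurableSet {τ | rg τ k < t} := measurableSet_lt (measurable_rg k) measurable_const
    calc kap {τ | rg τ k < t} = ∫⁻ τ, {τ | rg τ k < t}.indicator 1 τ ∂kap :=
          (lintegral_indicator_one hS).symm
      _ ≤ ∫⁻ τ, ENNReal.ofReal (Real.exp t) *
            ∏ j ∈ range (k + 1), ENNReal.ofReal (Real.exp (-τ j)) ∂kap := by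
          refine lintegral_mono fun τ => ?_
          by_cases h : rg τ k < t
          · rw [Set.indicator_of_mem (show τ ∈ {τ | rg τ k < t} from h),
              ← ENNReal.ofReal_prod_of_nonneg (fun _ _ => (Real.exp_pos _).le),
              ← Real.exp_sum, ← ENNReal.ofReal_mul (Real.exp_pos _).le, ← Real.exp_add]
            simp only [Pi.one_apply, ENNReal.one_le_ofReal, Real.one_le_exp_iff,
              sum_neg_distrib]
            unfold rg at h; linarith
          · rw [Set.indicator_of_notMem (show τ ∉ {τ | rg τ k < t} from h)]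
            exact zero_le
      _ = ENNReal.ofReal (Real.exp t) * r ^ (k + 1) := by
          rw [lintegral_const_mul _ (by fun_prop), h1]
      _ ≤ _ := by
          exact mul_le_mul_right (pow_le_pow_of_le_one zero_le hr1.le (Nat.le_succ k)) _
  refine ne_top_of_le_ne_top ?_ (ENNReal.tsum_le_tsum hb)
  rw [ENNReal.tsum_mul_left, ENNReal.tsum_geometric]
  exact ENNReal.mul_ne_top ENNReal.ofReal_ne_top
    (ENNReal.inv_ne_top.2 (tsub_pos_of_lt hr1).ne')

lemma kap_fin : ∀ᵐ τ ∂kap, ∀ t : ℝ, {k | rg τ k < t}.Finite := by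
  have : ∀ᵐ τ ∂kap, ∀ n : ℕ, {k | rg τ k < n}.Finite :=
    ae_all_iff.2 fun n => ae_finite_setOfPred_mem (kap_tail n)
  filter_upwards [this] with τ hτ t
  obtain ⟨n, hn⟩ := exists_nat_ge t
  exact (hτ n).subset fun k hk => lt_of_lt_of_le hk hn

lemma kap_window (T : ℝ) {δ : ℝ≥0∞} (hδ : δ ≠ 0) : ∃ ε : ℝ, 0 < ε ∧ ∀ a ≤ T,
    kap {τ | ∃ j, rg τ j ∈ Set.Ico a (a + ε)} ≤ δ := by
  have hδ2 : 0 < δ / 2 := ENNReal.half_pos hδ
  obtain ⟨K, hK⟩ := ((ENNReal.tendsto_sum_nat_add _ (kap_tail (T + 1))).eventually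
    (ge_mem_nhds hδ2)).exists
  have ht : Tendsto (fun ε : ℝ => (K : ℝ≥0∞) * ENNReal.ofReal ε) (𝓝[>] 0) (𝓝 0) := by
    have h1 : Tendsto (fun ε : ℝ => ENNReal.ofReal ε) (𝓝[>] 0) (𝓝 0) := by
      have := (ENNReal.continuous_ofReal.tendsto 0).mono_left (nhdsWithin_le_nhds (s := Set.Ioi 0))
      simpa using this
    simpa using ENNReal.Tendsto.const_mul (a := (K : ℝ≥0∞)) h1 (Or.inr (by simp))
  obtain ⟨ε, hε, hε1⟩ := ((ht.eventually (ge_mem_nhds hδ2)).and
    (Ioo_mem_nhdsGT (show (0 : ℝ) < 1 from one_pos))).exists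
  refine ⟨ε, hε1.1, fun a ha => ?_⟩
  have hsub : {τ | ∃ j, rg τ j ∈ Set.Ico a (a + ε)} ⊆
      (⋃ j ∈ range K, {τ | rg τ j ∈ Set.Ico a (a + ε)}) ∪ ⋃ j, {τ | rg τ (j + K) < T + 1} := by
    rintro τ ⟨j, hj⟩
    by_cases h : j < K
    · left; simp only [Set.mem_iUnion]; exact ⟨j, mem_range.2 h, hj⟩
    · right
      simp only [Set.mem_iUnion]
      refine ⟨j - K, ?_⟩
      rw [Set.mem_ofPred_eq, Nat.sub_add_cancel (not_lt.1 h)]
      linarith [hj.2, hε1.2]
  refine (measure_mono hsub).trans ((measure_union_le _ _).trans ?_)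
  rw [← ENNReal.add_halves δ]
  refine add_le_add ?_ ((measure_iUnion_le _).trans hK)
  refine (measure_biUnion_finset_le _ _).trans (le_trans ?_ hε)
  calc _ ≤ ∑ _j ∈ range K, ENNReal.ofReal ε := by
        refine sum_le_sum fun j _ => (kap_rg_le j measurableSet_Ico).trans ?_
        simp
    _ = _ := by simp

/-- law of the data at one vertex -/
noncomputable def nu (p : unitInterval) : Measure (Bool × (ℕ → ℝ)) :=
  (bernoulliMeasure true false p).prod kap

instance (p : unitInterval) : IsProbabilityMeasure (nu p) := by unfold nu; infer_instance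

lemma law_eq (d : ℕ) (p : unitInterval) : law d p = Measure.infinitePi fun _ : V d => nu p := rfl

instance (d : ℕ) (p : unitInterval) : IsProbabilityMeasure (law d p) := by
  rw [law_eq]; infer_instance

lemma mp_snd (p : unitInterval) : MeasurePreserving Prod.snd (nu p) kap := measurePreserving_snd

lemma mp_clock {d : ℕ} (p : unitInterval) (x : V d) :
    MeasurePreserving (fun ω : V d → Bool × (ℕ → ℝ) => (ω x).2) (law d p) kap :=
  (mp_snd p).comp (measurePreserving_eval_infinitePi (fun _ : V d => nu p) x)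

lemma no_ties {d : ℕ} (p : unitInterval) :
    ∀ᵐ ω ∂law d p, ∀ x y, x ≠ y → ∀ k l, ring ω x k ≠ ring ω y l := by
  refine ae_all_iff.2 fun x => ae_all_iff.2 fun y => ?_
  by_cases hxy : x = y
  · simp [hxy]
  simp only [ne_eq, hxy, not_false_eq_true, forall_const]
  refine ae_all_iff.2 fun k => ae_all_iff.2 fun l => ?_
  rw [ae_iff]
  have hT : MeasurableSet {q : (Bool × (ℕ → ℝ)) × (Bool × (ℕ → ℝ)) | rg q.1.2 k = rg q.2.2 l} :=
    measurableSet_eq_fun ((measurable_rg k).comp (by fun_prop))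
      ((measurable_rg l).comp (by fun_prop))
  have h1 : {ω : V d → Bool × (ℕ → ℝ) | ¬¬ring ω x k = ring ω y l} = (fun ω => (ω x, ω y)) ⁻¹'
      {q : (Bool × (ℕ → ℝ)) × (Bool × (ℕ → ℝ)) | rg q.1.2 k = rg q.2.2 l} := by
    ext ω; simp [ring, rg]
  rw [h1, ← Measure.map_apply (by fun_prop) hT, law_eq,
    Measure.infinitePi_map_eval_prod (P := fun _ : V d => nu p) hxy, Measure.prod_apply hT]
  refine (lintegral_congr fun a => ?_).trans lintegral_zero
  have h2 : Prod.mk a ⁻¹'
      {q : (Bool × (ℕ → ℝ)) × (Bool × (ℕ → ℝ)) | rg q.1.2 k = rg q.2.2 l} =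
      Prod.snd ⁻¹' {τ | rg τ l ∈ ({rg a.2 k} : Set ℝ)} := by
    ext b; simp [eq_comm]
  have h3 : MeasurableSet {τ | rg τ l ∈ ({rg a.2 k} : Set ℝ)} :=
    (measurable_rg l) (measurableSet_singleton _)
  rw [h2, (mp_snd p).measure_preimage h3.nullMeasurableSet]
  exact le_antisymm ((kap_rg_le l (measurableSet_singleton _)).trans (by simp)) zero_le

end Pool.Agent.P.MP_a7d87e_pr
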