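import Pool.Agent.P.MP_a7d87e_pr.Main

namespace Pool.Agent.P.MP_a7d87e_pr

open Finset MeasureTheory ProbabilityTheory Filter
open scoped ENNReal Topology

variable {d : ℕ}

/-- the events of `S`, restricted to rings not before `T` -/
def aft (T : ℝ) (x : V d) (S : ℕ → Set (V d → Bool × (ℕ → ℝ))) (k : ℕ) :
    Set (V d → Bool × (ℕ → ℝ)) := {ω | T ≤ ring ω x k} ∩ S k

lemma measurableSet_aft (T : ℝ) (x : V d) {S : ℕ → Set (V d → Bool × (ℕ → ℝ))}
    (hS : ∀ k, MeasurableSet (S k)) (k : ℕ) : MeasurableSet (aft T x S k) :=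
  (measurableSet_le measurable_const (measurable_ring x k)).inter (hS k)

/-- the spin at `x` is `+` at time `T` -/
def plus (T : ℝ) (x : V d) : Set (V d → Bool × (ℕ → ℝ)) := {ω | sol ω x (cn ω x T) = true}

lemma measurableSet_plus (T : ℝ) (x : V d) : MeasurableSet (plus T x) :=
  measurable_idx (measurable_sol x) (measurable_cn x measurable_const)
    (measurableSet_singleton true)

lemma law_plus (p : unitInterval) (T : ℝ) (x : V d) :
    law d p (plus T x) = law d p (plus T (root d)) := by
  rw [law_eq, ← (mp_sh (nu p) x).measure_preimage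
    (measurableSet_plus T (root d)).nullMeasurableSet]
  congr 1; ext ω
  simp only [plus, Set.mem_preimage, Set.mem_ofPred_eq, sol_sh, rho_root]
  rfl

lemma law_aP (p : unitInterval) (T t : ℝ) (x : V d) (i : Fin d) (k : ℕ) :
    law d p (aft T x (eP t x i) k) = law d p (aft T (root d) (eP t (root d) i) k) := by
  rw [law_eq, ← (mp_sh (nu p) x).measure_preimage
    (measurableSet_aft T _ (measurableSet_eP t (root d) i) k).nullMeasurableSet]
  congr 1; ext ω
  simp only [aft, eP, Set.mem_preimage, Set.mem_inter_iff, Set.mem_ofPred_eq, sol_sh, nbv_sh,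
    rho_root]
  rfl

lemma law_aM (p : unitInterval) (T t : ℝ) (x : V d) (i : Fin d) (k : ℕ) :
    law d p (aft T x (eM t x i) k) = law d p (aft T (root d) (eM t (root d) i) k) := by
  rw [law_eq, ← (mp_sh (nu p) x).measure_preimage
    (measurableSet_aft T _ (measurableSet_eM t (root d) i) k).nullMeasurableSet]
  congr 1; ext ω
  simp only [aft, eM, Set.mem_preimage, Set.mem_inter_iff, Set.mem_ofPred_eq, sol_sh, nbv_sh,
    rho_root]
  rfl

lemma sum_split {K₀ K : ℕ} (h : K₀ ≤ K) (q : ℕ → Prop) [DecidablePred q] :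
    (∑ k ∈ range K, if q k then 1 else 0 : ℕ) =
      (∑ k ∈ range K₀, if q k then 1 else 0) + ∑ k ∈ range K, if K₀ ≤ k ∧ q k then 1 else 0 := by
  induction K, h using Nat.le_induction with
  | base =>
    rw [sum_eq_zero (s := range K₀) (f := fun k => if K₀ ≤ k ∧ q k then 1 else 0)
      fun k hk => if_neg fun h => not_le.2 (mem_range.1 hk) h.1, add_zero]
  | succ K hK ih => rw [sum_range_succ, sum_range_succ, ih, add_assoc]; simp [hK]

lemma edge_aft {ω : V d → Bool × (ℕ → ℝ)} (h : Reg ω)
    (ht : ∀ x y, x ≠ y → ∀ k l, ring ω x k ≠ ring ω y l) {T t : ℝ} (hT : T ≤ t) (x : V d)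
    (i : Fin d) :
    num (aft T x (eM t x i)) ω + num (aft T (nb i x) (eM t (nb i x) i)) ω ≤
      num (aft T x (eP t x i)) ω + num (aft T (nb i x) (eP t (nb i x) i)) ω +
        ((plus T x).indicator 1 ω + (plus T (nb i x)).indicator 1 ω) := by
  have key := fun t => telescope (ring ω x) (ring ω (nb i x)) (h.mono _).monotone
    (h.mono _).monotone
    (sol ω x) (sol ω (nb i x)) (fun k => cn ω (nb i x) (ring ω x k))
    (fun l => cn ω x (ring ω (nb i x) l)) (fun _ _ => h.lt_cn) (fun _ _ => h.lt_cn)
    (ht _ _ (nb_ne i x).symm) _ (cn ω x t) (cn ω (nb i x) t) rfl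
    (fun k l hk hl => (h.lt_cn.1 hk).trans_le (not_lt.1 fun h' => not_lt.2 hl (h.lt_cn.2 h')))
    (fun k l hl hk => (h.lt_cn.1 hl).trans_le (not_lt.1 fun h' => not_lt.2 hk (h.lt_cn.2 h')))
  have le (y : V d) (k : ℕ) : cn ω y T ≤ k ↔ T ≤ ring ω y k := by
    rw [← not_lt, h.lt_cn, not_lt]
  have mo (y : V d) : cn ω y T ≤ cn ω y t :=
    not_lt.1 fun h' => lt_irrefl _ (h.lt_cn.2 ((h.lt_cn.1 h').trans_le hT))
  have k1 := key t
  have k2 := key T
  rw [sum_split (mo x), sum_split (mo (nb i x)), sum_split (K := cn ω x t) (mo x)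
    (fun k => _ ∧ _ = _), sum_split (K := cn ω (nb i x) t) (mo (nb i x)) (fun k => _ ∧ _ = _)] at k1
  rw [num_eq (S := aft T x (eM t x i)) (cn ω x t) (fun k => cn ω x T ≤ k ∧
      (sol ω x (k + 1) ≠ sol ω x k ∧ sol ω x k ≠ sol ω (nb i x) (cn ω (nb i x) (ring ω x k))))
      (fun k => by rw [h.lt_cn, le, and_left_comm]; rfl),
    num_eq (S := aft T x (eP t x i)) (cn ω x t) (fun k => cn ω x T ≤ k ∧
      (sol ω x (k + 1) ≠ sol ω x k ∧ sol ω x k = sol ω (nb i x) (cn ω (nb i x) (ring ω x k))))
      (fun k => by rw [h.lt_cn, le, and_left_comm]; rfl),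
    num_eq (S := aft T (nb i x) (eM t (nb i x) i)) (cn ω (nb i x) t)
      (fun k => cn ω (nb i x) T ≤ k ∧ (sol ω (nb i x) (k + 1) ≠ sol ω (nb i x) k ∧
      sol ω (nb i x) k ≠ sol ω x (cn ω x (ring ω (nb i x) k))))
      (fun k => by rw [h.lt_cn, le, and_left_comm]; simp only [aft, eM, nbv, nb_nb]; rfl),
    num_eq (S := aft T (nb i x) (eP t (nb i x) i)) (cn ω (nb i x) t)
      (fun k => cn ω (nb i x) T ≤ k ∧ (sol ω (nb i x) (k + 1) ≠ sol ω (nb i x) k ∧
      sol ω (nb i x) k = sol ω x (cn ω x (ring ω (nb i x) k))))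
      (fun k => by rw [h.lt_cn, le, and_left_comm]; simp only [aft, eP, nbv, nb_nb]; rfl)]
  have h1 : (((if sol ω x (cn ω x T) ≠ sol ω (nb i x) (cn ω (nb i x) T) then 1 else 0 : ℕ)) :
      ℝ≥0∞) ≤ (plus T x).indicator 1 ω + (plus T (nb i x)).indicator 1 ω := by
    split_ifs with h2
    · by_cases h3 : sol ω x (cn ω x T) = true
      · rw [Set.indicator_of_mem (show ω ∈ plus T x from h3)]
        simp
      · rw [Set.indicator_of_mem (show ω ∈ plus T (nb i x) from by
          change sol ω (nb i x) (cn ω (nb i x) T) = true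
          revert h2 h3
          cases sol ω x (cn ω x T) <;> cases sol ω (nb i x) (cn ω (nb i x) T) <;> simp)]
        simp
    · simp
  refine le_trans ?_ (add_le_add le_rfl h1)
  rw [← Nat.cast_add, ← Nat.cast_add, ← Nat.cast_add, Nat.cast_le]
  omega

lemma vertex_aft (hd : Odd d) {ω : V d → Bool × (ℕ → ℝ)} (h : IsSol ω (sol ω)) (T t : ℝ)
    (x : V d) : num (aft T x (eF t x)) ω + ∑ i, num (aft T x (eP t x i)) ω ≤
      ∑ i, num (aft T x (eM t x i)) ω := by
  unfold num
  rw [← Summable.tsum_finsetSum fun _ _ => ENNReal.summable,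
    ← Summable.tsum_finsetSum fun _ _ => ENNReal.summable, ← ENNReal.tsum_add]
  refine ENNReal.tsum_le_tsum fun k => ?_
  by_cases hF : ω ∈ aft T x (eF t x) k
  · have h1 := maj_flip hd (fun i => nbv ω x i k) (sol ω x k) (by
      have := (isSol_iff.1 h).2 x k
      unfold nbv
      rw [← this]; exact hF.2.2)
    have h2 : ∀ i, (aft T x (eP t x i) k).indicator (1 : (V d → Bool × (ℕ → ℝ)) → ℝ≥0∞) ω =
        if sol ω x k = nbv ω x i k then 1 else 0 := fun i => by
      split_ifs with hi
      · exact Set.indicator_of_mem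
          (show ω ∈ aft T x (eP t x i) k from ⟨hF.1, hF.2.1, hF.2.2, hi⟩) _
      · exact Set.indicator_of_notMem (fun h' => hi h'.2.2.2) _
    have h3 : ∀ i, (aft T x (eM t x i) k).indicator (1 : (V d → Bool × (ℕ → ℝ)) → ℝ≥0∞) ω =
        if sol ω x k ≠ nbv ω x i k then 1 else 0 := fun i => by
      split_ifs with hi
      · exact Set.indicator_of_mem
          (show ω ∈ aft T x (eM t x i) k from ⟨hF.1, hF.2.1, hF.2.2, hi⟩) _
      · exact Set.indicator_of_notMem (fun h' => hi h'.2.2.2) _
    rw [Set.indicator_of_mem hF]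
    simp only [h2, h3, sum_boole, Pi.one_apply]
    exact_mod_cast h1
  · have h2 : ∀ i, (aft T x (eP t x i) k).indicator (1 : (V d → Bool × (ℕ → ℝ)) → ℝ≥0∞) ω = 0 :=
      fun i => Set.indicator_of_notMem (fun h' => hF ⟨h'.1, h'.2.1, h'.2.2.1⟩) _
    rw [Set.indicator_of_notMem hF]
    simp [h2]

lemma flips_aft (hd : Odd d) (p : unitInterval) {T t : ℝ} (hT : T ≤ t) :
    ∑' k, law d p (aft T (root d) (eF t (root d)) k) ≤ 2 * d * law d p (plus T (root d)) := by
  set μ := law d p with hμ
  set P : Fin d → ℝ≥0∞ := fun i => ∑' k, μ (aft T (root d) (eP t (root d) i) k) with hP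
  set M : Fin d → ℝ≥0∞ := fun i => ∑' k, μ (aft T (root d) (eM t (root d) i) k) with hM
  set f := μ (plus T (root d)) with hf
  have mM := fun x i => measurableSet_aft T x (measurableSet_eM t (d := d) x i)
  have mP := fun x i => measurableSet_aft T x (measurableSet_eP t (d := d) x i)
  have mF := fun x => measurableSet_aft T x (measurableSet_eF t (d := d) x)
  have h1 : ∀ i, M i + M i ≤ P i + P i + (f + f) := by
    intro i
    have := lintegral_mono_ae (μ := μ) (by
      filter_upwards [reg_ae p, no_ties p] with ω h1 h2 using edge_aft h1 h2 hT (root d) i)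
    rw [lintegral_add_left (measurable_num (mM _ _)),
      lintegral_add_left ((measurable_num (mP _ _)).fun_add (measurable_num (mP _ _))),
      lintegral_add_left (measurable_num (mP _ _)),
      lintegral_add_left (measurable_one.indicator (measurableSet_plus _ _))] at this
    simp only [lintegral_num _ (mM _ _), lintegral_num _ (mP _ _),
      lintegral_indicator_one (measurableSet_plus _ _)] at this
    simpa only [hμ, law_aM p T t (nb i _), law_aP p T t (nb i _), law_plus p T (nb i _)] using this
  have h2 : ∑' k, μ (aft T (root d) (eF t (root d)) k) + ∑ i, P i ≤ ∑ i, M i := by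
    have := lintegral_mono_ae (μ := μ) (by
      filter_upwards [fd_ae p] with ω h1 using vertex_aft hd (isSol_sol h1) T t (root d))
    rw [lintegral_add_left (measurable_num (mF _)),
      lintegral_finsetSum _ (fun i _ => measurable_num (mP _ _)),
      lintegral_finsetSum _ (fun i _ => measurable_num (mM _ _))] at this
    simpa only [lintegral_num _ (mM _ _), lintegral_num _ (mP _ _), lintegral_num _ (mF _)]
      using this
  have h3 : ∑ i, P i ≠ ∞ := by
    refine ENNReal.sum_ne_top.2 fun i _ => ne_top_of_le_ne_top (kap_tail t) ?_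
    refine ENNReal.tsum_le_tsum fun k => ?_
    rw [← (mp_clock p (root d)).measure_preimage
      (measurableSet_lt (measurable_rg k) measurable_const).nullMeasurableSet]
    exact measure_mono fun ω hω => hω.2.1
  have h4 : ∑ i, M i + ∑ i, M i ≤ ∑ i, P i + ∑ i, P i + 2 * d * f := by
    have := sum_le_sum fun i (_ : i ∈ univ) => h1 i
    simp only [sum_add_distrib, sum_const, card_univ, Fintype.card_fin, nsmul_eq_mul] at this
    exact this.trans_eq (by ring)
  set F := ∑' k, μ (aft T (root d) (eF t (root d)) k)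
  have h5 : (∑ i, P i + ∑ i, P i) + (F + F) ≤ (∑ i, P i + ∑ i, P i) + 2 * d * f := by
    calc _ = (F + ∑ i, P i) + (F + ∑ i, P i) := by ring
      _ ≤ ∑ i, M i + ∑ i, M i := add_le_add h2 h2
      _ ≤ _ := h4
  exact le_self_add.trans ((ENNReal.add_le_add_iff_left (ENNReal.add_ne_top.2 ⟨h3, h3⟩)).1 h5)

/-- The final density of `+` is controlled by the density at any fixed time. -/
lemma evP_le (hd : Odd d) (p : unitInterval) (T : ℝ) :
    law d p (evP d) ≤ (2 * d + 1) * law d p (plus T (root d)) := by
  let A : ℕ → Set (V d → Bool × (ℕ → ℝ)) := fun n => ⋃ k, aft T (root d) (eF (T + n) (root d)) k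
  have hA : Monotone A := fun n m h => Set.iUnion_mono fun k ω hω =>
    ⟨hω.1, hω.2.1.trans_le (by gcongr), hω.2.2⟩
  have h1 : law d p (⋃ n, A n) ≤ 2 * d * law d p (plus T (root d)) := by
    rw [hA.measure_iUnion]
    exact iSup_le fun n => (measure_iUnion_le _).trans
      (flips_aft hd p (le_add_of_nonneg_right n.cast_nonneg))
  have h2 : evP d ≤ᵐ[law d p] ((⋃ n, A n) ∪ plus T (root d) : Set _) := by
    filter_upwards [reg_ae p] with ω hr
    rintro ⟨N, hN⟩
    by_contra hn
    have h3 : ∀ k, cn ω (root d) T ≤ k → sol ω (root d) k = sol ω (root d) (cn ω (root d) T) := by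
      intro k hk
      induction k, hk using Nat.le_induction with
      | base => rfl
      | succ k hk ih =>
        rw [← ih]
        by_contra h4
        obtain ⟨n, hn'⟩ := exists_nat_gt (ring ω (root d) k - T)
        exact hn (Or.inl (Set.mem_iUnion.2 ⟨n, Set.mem_iUnion.2 ⟨k,
          not_lt.1 fun h => not_lt.2 hk (hr.lt_cn.2 h), by linarith, h4⟩⟩))
    exact hn (Or.inr ((h3 _ (le_max_left _ N)).symm.trans (hN _ (le_max_right _ N))))
  calc _ ≤ _ := measure_mono_ae h2
    _ ≤ _ := measure_union_le _ _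
    _ ≤ 2 * d * law d p (plus T (root d)) + law d p (plus T (root d)) := by gcongr
    _ = _ := by ring

lemma plus_tendsto (hd : Odd d) (p : unitInterval) :
    Tendsto (fun n : ℕ => law d p (plus n (root d))) atTop (𝓝 (law d p (evP d))) := by
  refine tendsto_measure_of_ae_tendsto_indicator_of_isFiniteMeasure atTop measurableSet_evP
    (fun n => measurableSet_plus _ _) ?_
  filter_upwards [reg_ae p, fix_ae hd p] with ω hr hf
  obtain ⟨b, hb⟩ := hf (root d)
  have h1 : Tendsto (fun n : ℕ => cn ω (root d) n) atTop atTop := tendsto_atTop.2 fun N => by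
    filter_upwards [tendsto_natCast_atTop_atTop.eventually
      (eventually_gt_atTop (ring ω (root d) N))] with n hn
    exact (hr.lt_cn.2 hn).le
  filter_upwards [h1.eventually hb] with n hn
  change sol ω (root d) (cn ω (root d) n) = true ↔ ∃ N, ∀ k, N ≤ k → sol ω (root d) k = true
  rw [hn, ← eventually_atTop (p := fun k => sol ω (root d) k = true)]
  exact ⟨fun h => h ▸ hb, fun h => let ⟨_, h1, h2⟩ := (hb.and h).exists; h1 ▸ h2⟩

/-- the coupling of all densities by uniform labels -/
noncomputable def lab (p : unitInterval) (ω : V d → unitInterval × (ℕ → ℝ)) :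
    V d → Bool × (ℕ → ℝ) := fun x => (decide ((ω x).1 ≤ p), (ω x).2)

/-- the law of labels and clocks -/
noncomputable def big (d : ℕ) : Measure (V d → unitInterval × (ℕ → ℝ)) :=
  Measure.infinitePi fun _ => (volume : Measure unitInterval).prod kap

instance : IsProbabilityMeasure (big d) := by unfold big; infer_instance

lemma measurable_cut (p : unitInterval) : Measurable fun u : unitInterval => decide (u ≤ p) :=
  measurable_to_bool (by
    have : (fun u : unitInterval => decide (u ≤ p)) ⁻¹' {true} = Set.Iic p := by ext; simp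
    rw [this]; exact measurableSet_Iic)

lemma map_cut (p : unitInterval) :
    (volume : Measure unitInterval).map (fun u => decide (u ≤ p)) =
      bernoulliMeasure true false p := by
  refine Measure.ext_of_singleton fun b => ?_
  rw [Measure.map_apply (measurable_cut p) (measurableSet_singleton b)]
  cases b
  · have : (fun u : unitInterval => decide (u ≤ p)) ⁻¹' {false} = Set.Ioi p := by ext; simp
    rw [this, unitInterval.volume_Ioi, bernoulliMeasure_apply_of_notMem_of_mem p
      (measurableSet_singleton _) (by simp) rfl, ← ENNReal.ofReal_coe_nnreal]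
    rfl
  · have : (fun u : unitInterval => decide (u ≤ p)) ⁻¹' {true} = Set.Iic p := by ext; simp
    rw [this, unitInterval.volume_Iic, bernoulliMeasure_apply_of_mem_of_notMem p
      (measurableSet_singleton _) rfl (by simp), ← ENNReal.ofReal_coe_nnreal]
    rfl

lemma mp_lab (p : unitInterval) : MeasurePreserving (lab p) (big d) (law d p) := by
  have hm : Measurable (Prod.map (fun u : unitInterval => decide (u ≤ p)) (id : (ℕ → ℝ) → ℕ → ℝ)) :=
    (measurable_cut p).prodMap measurable_id
  refine ⟨measurable_pi_lambda _ fun x => hm.comp (measurable_pi_apply x), ?_⟩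
  have := Measure.infinitePi_map_pi (fun _ : V d => (volume : Measure unitInterval).prod kap)
    (f := fun _ => Prod.map (fun u : unitInterval => decide (u ≤ p)) id) fun _ => hm
  rw [← Measure.map_prod_map _ _ (measurable_cut p) measurable_id, map_cut, Measure.map_id] at this
  exact this

lemma Fd.lab {p : unitInterval} (q : unitInterval) {ω : V d → unitInterval × (ℕ → ℝ)} {x : V d}
    {k : ℕ} (h : Fd (lab p ω) x k) : Fd (lab q ω) x k := by
  induction h with
  | zero x => exact Fd.zero x
  | succ x k _ ih => exact Fd.succ x k ih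

lemma fd_big : ∀ᵐ ω ∂big d, ∀ p x k, Fd (lab p ω) x k := by
  filter_upwards [(mp_lab 0).quasiMeasurePreserving.ae (fd_ae 0)] with ω h p x k
  exact (h x k).lab p

lemma plus_cont (T : ℝ) (p : unitInterval) :
    ContinuousAt (fun q => law d q (plus T (root d))) p := by
  have hm := measurableSet_plus T (root d)
  simp only [ContinuousAt, ← fun q => (mp_lab q).measure_preimage hm.nullMeasurableSet]
  refine tendsto_measure_of_ae_tendsto_indicator_of_isFiniteMeasure (𝓝 p)
    ((mp_lab p).measurable hm) (fun q => (mp_lab q).measurable hm) ?_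
  have h0 : ∀ᵐ ω ∂big d, ∀ x, (ω x).1 ≠ p := ae_all_iff.2 fun x =>
    ((measurePreserving_fst (μ := (volume : Measure unitInterval)) (ν := kap)).comp
      (measurePreserving_eval_infinitePi (fun _ : V d => (volume : Measure unitInterval).prod kap)
        x)).quasiMeasurePreserving.ae (p := fun u => u ≠ p) (Measure.ae_ne _ p)
  filter_upwards [fd_big, h0] with ω hf hp
  have key : ∀ x k, Fd (lab p ω) x k → ∀ᶠ q in 𝓝 p, sol (lab q ω) x k = sol (lab p ω) x k := by
    intro x k h
    induction h with
    | zero x =>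
      simp only [fun q => (isSol_sol (hf q)).1 x, lab, decide_eq_decide]
      rcases lt_or_gt_of_ne (hp x) with h | h
      · exact (eventually_gt_nhds h).mono fun q hq => iff_of_true hq.le h.le
      · exact (eventually_lt_nhds h).mono fun q hq => iff_of_false (not_le.2 hq) (not_le.2 h)
    | succ x k _ ih =>
      filter_upwards [eventually_all.2 ih] with q hq
      rw [(isSol_iff.1 (isSol_sol (hf q))).2, (isSol_iff.1 (isSol_sol (hf p))).2]
      exact congrArg maj (funext hq)
  filter_upwards [key _ _ (hf p (root d) (cn (lab p ω) (root d) T))] with q hq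
  change sol (lab q ω) (root d) (cn (lab p ω) (root d) T) = true ↔ _
  rw [hq]
  rfl

lemma theta_mono : Monotone (theta d) := by
  intro p q hpq
  rw [theta_eq, theta_eq, Measure.real, Measure.real,
    ← (mp_lab p).measure_preimage measurableSet_evP.nullMeasurableSet,
    ← (mp_lab q).measure_preimage measurableSet_evP.nullMeasurableSet]
  refine ENNReal.toReal_mono (measure_ne_top _ _) (measure_mono_ae ?_)
  filter_upwards [fd_big] with ω hf
  have key : ∀ x k, Fd (lab p ω) x k → sol (lab p ω) x k = true → sol (lab q ω) x k = true := by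
    intro x k h
    induction h with
    | zero x =>
      simp only [fun q => (isSol_sol (hf q)).1 x, lab, decide_eq_true_eq]
      exact fun h => h.trans hpq
    | succ x k _ ih =>
      rw [(isSol_iff.1 (isSol_sol (hf q))).2, (isSol_iff.1 (isSol_sol (hf p))).2]
      simp only [maj, decide_eq_true_eq]
      refine fun h => h.trans_le (Nat.mul_le_mul_left 2 (card_le_card fun i hi => ?_))
      simp only [mem_filter, mem_univ, true_and] at hi ⊢
      exact ih i hi
  rintro ⟨N, hN⟩
  exact ⟨N, fun k hk => key _ _ (hf p _ _) (hN k hk)⟩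

lemma theta_gap' (hd : Odd d) (h5 : 5 ≤ d) (p : unitInterval) :
    theta d p = 0 ∨ Real.exp (-(d + 2)) ≤ theta d p := by
  classical
  obtain ⟨m, hm⟩ := hd
  rw [theta_eq]
  refine gap3 (nu p) (evP d) measurableSet_evP ?_
  filter_upwards [min_degree hm p] with ω hω h
  exact le_trans (by omega) (hω (root d) (by simpa using h))

/-- The zero set of `theta` is open. -/
lemma zero_open (hd : Odd d) (h5 : 5 ≤ d) {p : unitInterval} (hp : theta d p = 0) :
    ∀ᶠ q in 𝓝 p, theta d q = 0 := by
  have hc : (0 : ℝ≥0∞) < ENNReal.ofReal (Real.exp (-(d + 2))) :=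
    ENNReal.ofReal_pos.2 (Real.exp_pos _)
  have hK : (2 * d + 1 : ℝ≥0∞) ≠ ∞ := by finiteness
  have h1 := ENNReal.Tendsto.const_mul (a := 2 * d + 1) (plus_tendsto hd p) (Or.inr hK)
  rw [theta_eq, measureReal_eq_zero_iff] at hp
  rw [hp, mul_zero] at h1
  obtain ⟨n, hn⟩ := (h1.eventually (eventually_lt_nhds hc)).exists
  have h2 := ENNReal.Tendsto.const_mul (a := 2 * d + 1) (plus_cont (d := d) n p) (Or.inr hK)
  filter_upwards [h2.eventually (eventually_lt_nhds hn)] with q hq
  refine (theta_gap' hd h5 q).resolve_right (not_le.2 ?_)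
  rw [theta_eq]
  exact ENNReal.toReal_lt_of_lt_ofReal ((evP_le hd q n).trans_lt hq)

lemma lt_pc (hd : Odd d) (h5 : 5 ≤ d) {p : unitInterval} (hp : theta d p = 0) : p < pc d := by
  have h1 : p < 1 := lt_of_le_of_ne le_top fun e => by
    rw [e, theta_one (by omega)] at hp
    exact one_ne_zero hp
  have : (𝓝[>] p).NeBot := nhdsGT_neBot_of_exists_gt ⟨1, h1⟩
  obtain ⟨q, h2, h3⟩ := (((zero_open hd h5 hp).filter_mono
    (nhdsWithin_le_nhds (s := Set.Ioi p))).and self_mem_nhdsWithin).exists
  exact lt_of_lt_of_le h3 (le_sSup (s := {p | theta d p = 0}) h2)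

end Pool.Agent.P.MP_a7d87e_pr
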