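import Mathlib

namespace Pool.Agent.P.MP_a7d87e_pr

open MeasureTheory ProbabilityTheory Filter

/-- Vertices of the `d`-regular tree: words over `Fin d` whose consecutive letters differ. -/
def V (d : ℕ) : Type := {l : List (Fin d) // l.IsChain (· ≠ ·)}

/-- The root `o` is the empty word. -/
def root (d : ℕ) : V d := ⟨[], List.isChain_nil⟩

/-- The `d` neighbours of `x`: `nb i x` deletes the first letter of `x` if it is `i`
(the parent of `x`), and otherwise puts `i` in front of `x` (a child of `x`). -/
def nb {d : ℕ} (i : Fin d) (x : V d) : V d :=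
  if h : x.1.head? = some i then ⟨x.1.tail, x.2.tail⟩
  else ⟨i :: x.1, List.isChain_cons.2 ⟨fun _ hy e => h (e ▸ hy), x.2⟩⟩

/-- The law `ℙ_p`: independently at every vertex, an initial spin (`true` is `+1`) with
`ℙ(+1) = p`, and an independent i.i.d. sequence of `Exp(1)` waiting times of its clock. -/
noncomputable def law (d : ℕ) (p : unitInterval) : Measure (V d → Bool × (ℕ → ℝ)) :=
  Measure.infinitePi fun _ =>
    (bernoulliMeasure true false p).prod (Measure.infinitePi fun _ : ℕ => expMeasure 1)

/-- The time of the `(k+1)`-st ring of the rate-one Poisson clock at `x`. -/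
def ring {d : ℕ} (ω : V d → Bool × (ℕ → ℝ)) (x : V d) (k : ℕ) : ℝ :=
  ∑ j ∈ Finset.range (k + 1), (ω x).2 j

/-- `s x k` is the spin at `x` after its clock has rung `k` times. It starts at the initial spin,
and at the ring time `t = ring ω x k` it becomes the majority value of the spins `σ_y(t⁻)` of
the neighbours `y`, where `σ_y(t⁻) = s y (number of rings of y before t)`. -/
def IsSol {d : ℕ} (ω : V d → Bool × (ℕ → ℝ)) (s : V d → ℕ → Bool) : Prop :=
  (∀ x, s x 0 = (ω x).1) ∧ ∀ x k, (s x (k + 1) = true ↔
    d < 2 * (Finset.univ.filter fun i : Fin d =>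
      s (nb i x) {j | ring ω (nb i x) j < ring ω x k}.ncard = true).card)

/-- `θ_d(p) = ℙ_p(σ_o(∞) = +1)`: the probability that the spin at the root,
`σ_o(t) = s o (number of rings of o up to time t)`, equals `+1` for all large times `t`. -/
noncomputable def theta (d : ℕ) (p : unitInterval) : ℝ :=
  (law d p).real {ω | ∃ s, IsSol ω s ∧
    ∀ᶠ t : ℝ in atTop, s (root d) {j | ring ω (root d) j ≤ t}.ncard = true}

/-- `p_c(d) = sup {p ∈ [0,1] | θ_d(p) = 0}`. -/
noncomputable def pc (d : ℕ) : unitInterval := sSup {p | theta d p = 0}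

end Pool.Agent.P.MP_a7d87e_pr
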