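import Pool.Agent.P.MP_a7d87e_pr.Well

namespace Pool.Agent.P.MP_a7d87e_pr

open Finset MeasureTheory ProbabilityTheory Filter
open scoped ENNReal Topology

variable {d : ℕ}

lemma telescope (a b : ℕ → ℝ) (ha : Monotone a) (hb : Monotone b) (u v : ℕ → Bool)
    (c e : ℕ → ℕ) (hc : ∀ k l, l < c k ↔ b l < a k) (he : ∀ l k, k < e l ↔ a k < b l)
    (hab : ∀ k l, a k ≠ b l) (n : ℕ) : ∀ K L, K + L = n →
      (∀ k l, k < K → L ≤ l → a k < b l) → (∀ k l, l < L → K ≤ k → b l < a k) →
      (∑ k ∈ range K, if u (k + 1) ≠ u k ∧ u k ≠ v (c k) then 1 else 0) +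
      (∑ l ∈ range L, if v (l + 1) ≠ v l ∧ v l ≠ u (e l) then 1 else 0) +
      (if u K ≠ v L then 1 else 0) =
      (∑ k ∈ range K, if u (k + 1) ≠ u k ∧ u k = v (c k) then 1 else 0) +
      (∑ l ∈ range L, if v (l + 1) ≠ v l ∧ v l = u (e l) then 1 else 0) +
      (if u 0 ≠ v 0 then 1 else 0 : ℕ) := by
  induction n with
  | zero =>
    intro K L h _ _
    obtain rfl : K = 0 := by omega
    obtain rfl : L = 0 := by omega
    simp
  | succ n ih =>
    intro K L h h1 h2
    have hcase : (∃ K', K = K' + 1 ∧ ∀ l < L, b l < a K') ∨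
        (∃ L', L = L' + 1 ∧ ∀ k < K, a k < b L') := by
      rcases K with _ | K
      · right; exact ⟨n, by omega, fun k hk => by omega⟩
      rcases L with _ | L
      · left; exact ⟨K, rfl, fun l hl => by omega⟩
      rcases lt_or_gt_of_ne (hab K L) with h3 | h3
      · right; exact ⟨L, rfl, fun k hk => (ha (by omega)).trans_lt h3⟩
      · left; exact ⟨K, rfl, fun l hl => (hb (by omega)).trans_lt h3⟩
    rcases hcase with ⟨K, rfl, h3⟩ | ⟨L, rfl, h3⟩
    · have hcK : c K = L := by
        refine le_antisymm (not_lt.1 fun h4 => ?_) (not_lt.1 fun h4 => ?_)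
        · exact absurd ((hc K L).1 h4) (not_lt.2 (h1 K L (by omega) le_rfl).le)
        · exact absurd ((hc K (c K)).2 (h3 _ h4)) (lt_irrefl _)
      have := ih K L (by omega) (fun k l hk hl => h1 k l (by omega) hl)
        (fun k l hl hk => (h3 l hl).trans_le (ha hk))
      rw [sum_range_succ, sum_range_succ, hcK]
      generalize u (K + 1) = x at *
      generalize u K = y at *
      generalize v L = z at *
      cases x <;> cases y <;> cases z <;> simp only [ne_eq, not_true_eq_false, and_self,
        Bool.false_eq_true, Bool.true_eq_false, not_false_eq_true, and_true, and_false,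
        if_true, if_false] at this ⊢ <;> omega
    · have heL : e L = K := by
        refine le_antisymm (not_lt.1 fun h4 => ?_) (not_lt.1 fun h4 => ?_)
        · exact absurd ((he L K).1 h4) (not_lt.2 (h2 K L (by omega) le_rfl).le)
        · exact absurd ((he L (e L)).2 (h3 _ h4)) (lt_irrefl _)
      have := ih K L (by omega) (fun k l hk hl => (h3 k hk).trans_le (hb hl))
        (fun k l hl hk => h2 k l (by omega) hk)
      rw [sum_range_succ, sum_range_succ, heL]
      generalize v (L + 1) = x at *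
      generalize v L = y at *
      generalize u K = z at *
      cases x <;> cases y <;> cases z <;> simp only [ne_eq, not_true_eq_false, and_self,
        Bool.false_eq_true, Bool.true_eq_false, not_false_eq_true, and_true, and_false,
        if_true, if_false] at this ⊢ <;> omega

lemma maj_flip (hd : Odd d) (b : Fin d → Bool) (s : Bool) (h : maj b ≠ s) :
    1 + (univ.filter fun i => s = b i).card ≤ (univ.filter fun i => s ≠ b i).card := by
  have h1 := card_filter_add_card_filter_not (s := (univ : Finset (Fin d))) (fun i => s = b i)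
  rw [card_univ, Fintype.card_fin] at h1
  obtain ⟨m, hm⟩ := hd
  cases s with
  | true =>
    have h2 : ¬ d < 2 * (univ.filter fun i => b i = true).card := by simpa [maj] using h
    have h3 : (univ.filter fun i => b i = true) = univ.filter fun i => true = b i := by
      exact filter_congr fun i _ => eq_comm
    rw [h3] at h2
    simp only [ne_eq]
    omega
  | false =>
    have h2 : d < 2 * (univ.filter fun i => b i = true).card := by simpa [maj] using h
    have h3 : (univ.filter fun i => b i = true) = univ.filter fun i => ¬ false = b i := by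
      ext i; simp
    rw [h3] at h2
    simp only [ne_eq]
    omega

/-- the spin of the `i`-th neighbour just before ring `k` of `x` -/
noncomputable def nbv (ω : V d → Bool × (ℕ → ℝ)) (x : V d) (i : Fin d) (k : ℕ) : Bool :=
  sol ω (nb i x) (cn ω (nb i x) (ring ω x k))

lemma measurable_nbv (x : V d) (i : Fin d) (k : ℕ) : Measurable fun ω => nbv ω x i k :=
  measurable_idx (measurable_sol (nb i x)) (measurable_cn _ (measurable_ring x k))

lemma nbv_sh (z : V d) (ω : V d → Bool × (ℕ → ℝ)) (x : V d) (i : Fin d) (k : ℕ) :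
    nbv (sh z ω) x i k = nbv ω (rho z x) i k := by
  unfold nbv
  rw [sol_sh, ← rho_nb]; rfl

/-- flips before time `t` -/
def eF (t : ℝ) (x : V d) (k : ℕ) : Set (V d → Bool × (ℕ → ℝ)) :=
  {ω | ring ω x k < t ∧ sol ω x (k + 1) ≠ sol ω x k}

/-- flips creating a disagreement -/
def eP (t : ℝ) (x : V d) (i : Fin d) (k : ℕ) : Set (V d → Bool × (ℕ → ℝ)) :=
  {ω | ring ω x k < t ∧ sol ω x (k + 1) ≠ sol ω x k ∧ sol ω x k = nbv ω x i k}

/-- flips removing a disagreement -/
def eM (t : ℝ) (x : V d) (i : Fin d) (k : ℕ) : Set (V d → Bool × (ℕ → ℝ)) :=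
  {ω | ring ω x k < t ∧ sol ω x (k + 1) ≠ sol ω x k ∧ sol ω x k ≠ nbv ω x i k}

lemma measurableSet_eF (t : ℝ) (x : V d) (k : ℕ) : MeasurableSet (eF t x k) :=
  (measurableSet_lt (measurable_ring x k) measurable_const).inter
    (measurableSet_eq_fun (measurable_sol _ _) (measurable_sol _ _)).compl

lemma measurableSet_eP (t : ℝ) (x : V d) (i : Fin d) (k : ℕ) : MeasurableSet (eP t x i k) :=
  (measurableSet_lt (measurable_ring x k) measurable_const).inter
    ((measurableSet_eq_fun (measurable_sol _ _) (measurable_sol _ _)).compl.inter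
      (measurableSet_eq_fun (measurable_sol _ _) (measurable_nbv _ _ _)))

lemma measurableSet_eM (t : ℝ) (x : V d) (i : Fin d) (k : ℕ) : MeasurableSet (eM t x i k) :=
  (measurableSet_lt (measurable_ring x k) measurable_const).inter
    ((measurableSet_eq_fun (measurable_sol _ _) (measurable_sol _ _)).compl.inter
      (measurableSet_eq_fun (measurable_sol _ _) (measurable_nbv _ _ _)).compl)

lemma law_eP (p : unitInterval) (t : ℝ) (x : V d) (i : Fin d) (k : ℕ) :
    law d p (eP t x i k) = law d p (eP t (root d) i k) := by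
  rw [law_eq, ← (mp_sh (nu p) x).measure_preimage
    (measurableSet_eP t (root d) i k).nullMeasurableSet]
  congr 1; ext ω
  simp only [eP, Set.mem_ofPred_eq, Set.mem_preimage, sol_sh, nbv_sh, rho_root]
  rfl

lemma law_eM (p : unitInterval) (t : ℝ) (x : V d) (i : Fin d) (k : ℕ) :
    law d p (eM t x i k) = law d p (eM t (root d) i k) := by
  rw [law_eq, ← (mp_sh (nu p) x).measure_preimage
    (measurableSet_eM t (root d) i k).nullMeasurableSet]
  congr 1; ext ω
  simp only [eM, Set.mem_ofPred_eq, Set.mem_preimage, sol_sh, nbv_sh, rho_root]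
  rfl

/-- number of events that occur -/
noncomputable def num {α : Type*} (S : ℕ → Set α) (a : α) : ℝ≥0∞ :=
  ∑' k, (S k).indicator 1 a

lemma measurable_num {α : Type*} [MeasurableSpace α] {S : ℕ → Set α}
    (hS : ∀ k, MeasurableSet (S k)) : Measurable (num S) :=
  Measurable.tsum fun k => measurable_one.indicator (hS k)

lemma lintegral_num {α : Type*} [MeasurableSpace α] (μ : Measure α) {S : ℕ → Set α}
    (hS : ∀ k, MeasurableSet (S k)) : ∫⁻ a, num S a ∂μ = ∑' k, μ (S k) := by
  unfold num
  rw [lintegral_tsum fun k => (measurable_one.indicator (hS k)).aemeasurable]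
  simp only [lintegral_indicator_one (hS _)]

lemma num_eq {α : Type*} {S : ℕ → Set α} {a : α} (K : ℕ) (q : ℕ → Prop) [DecidablePred q]
    (h : ∀ k, a ∈ S k ↔ k < K ∧ q k) :
    num S a = ((∑ k ∈ range K, if q k then 1 else 0 : ℕ) : ℝ≥0∞) := by
  unfold num
  rw [tsum_eq_sum (s := range K)]
  · push_cast
    refine sum_congr rfl fun k hk => ?_
    by_cases hq : q k
    · rw [Set.indicator_of_mem ((h k).2 ⟨mem_range.1 hk, hq⟩), if_pos hq]; rfl
    · rw [Set.indicator_of_notMem (fun h' => hq ((h k).1 h').2), if_neg hq]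
  · intro k hk
    exact Set.indicator_of_notMem (fun h' => hk (mem_range.2 ((h k).1 h').1)) _

lemma edge_ineq {ω : V d → Bool × (ℕ → ℝ)} (h : Reg ω)
    (ht : ∀ x y, x ≠ y → ∀ k l, ring ω x k ≠ ring ω y l) (t : ℝ) (x : V d) (i : Fin d) :
    num (eM t x i) ω + num (eM t (nb i x) i) ω ≤
      num (eP t x i) ω + num (eP t (nb i x) i) ω + 1 := by
  have key := telescope (ring ω x) (ring ω (nb i x)) (h.mono _).monotone (h.mono _).monotone
    (sol ω x) (sol ω (nb i x)) (fun k => cn ω (nb i x) (ring ω x k))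
    (fun l => cn ω x (ring ω (nb i x) l)) (fun _ _ => h.lt_cn) (fun _ _ => h.lt_cn)
    (ht _ _ (nb_ne i x).symm) _ (cn ω x t) (cn ω (nb i x) t) rfl
    (fun k l hk hl => (h.lt_cn.1 hk).trans_le (not_lt.1 fun h' => not_lt.2 hl (h.lt_cn.2 h')))
    (fun k l hl hk => (h.lt_cn.1 hl).trans_le (not_lt.1 fun h' => not_lt.2 hk (h.lt_cn.2 h')))
  rw [num_eq (S := eM t x i) (cn ω x t) (fun k => sol ω x (k + 1) ≠ sol ω x k ∧
      sol ω x k ≠ sol ω (nb i x) (cn ω (nb i x) (ring ω x k)))
      (fun k => by rw [h.lt_cn]; rfl),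
    num_eq (S := eP t x i) (cn ω x t) (fun k => sol ω x (k + 1) ≠ sol ω x k ∧
      sol ω x k = sol ω (nb i x) (cn ω (nb i x) (ring ω x k)))
      (fun k => by rw [h.lt_cn]; rfl),
    num_eq (S := eM t (nb i x) i) (cn ω (nb i x) t)
      (fun k => sol ω (nb i x) (k + 1) ≠ sol ω (nb i x) k ∧
      sol ω (nb i x) k ≠ sol ω x (cn ω x (ring ω (nb i x) k)))
      (fun k => by rw [h.lt_cn]; simp only [eM, nbv, nb_nb]; rfl),
    num_eq (S := eP t (nb i x) i) (cn ω (nb i x) t)
      (fun k => sol ω (nb i x) (k + 1) ≠ sol ω (nb i x) k ∧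
      sol ω (nb i x) k = sol ω x (cn ω x (ring ω (nb i x) k)))
      (fun k => by rw [h.lt_cn]; simp only [eP, nbv, nb_nb]; rfl)]
  have h1 : (if sol ω x 0 ≠ sol ω (nb i x) 0 then 1 else 0 : ℕ) ≤ 1 := by split_ifs <;> simp
  rw [← Nat.cast_add, ← Nat.cast_add, ← Nat.cast_succ, Nat.cast_le]
  omega

lemma vertex_ineq (hd : Odd d) {ω : V d → Bool × (ℕ → ℝ)} (h : IsSol ω (sol ω)) (t : ℝ)
    (x : V d) : num (eF t x) ω + ∑ i, num (eP t x i) ω ≤ ∑ i, num (eM t x i) ω := by
  unfold num
  rw [← Summable.tsum_finsetSum fun _ _ => ENNReal.summable,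
    ← Summable.tsum_finsetSum fun _ _ => ENNReal.summable, ← ENNReal.tsum_add]
  refine ENNReal.tsum_le_tsum fun k => ?_
  by_cases hF : ω ∈ eF t x k
  · have h1 := maj_flip hd (fun i => nbv ω x i k) (sol ω x k) (by
      have := (isSol_iff.1 h).2 x k
      unfold nbv
      rw [← this]; exact hF.2)
    have h2 : ∀ i, (eP t x i k).indicator (1 : (V d → Bool × (ℕ → ℝ)) → ℝ≥0∞) ω =
        if sol ω x k = nbv ω x i k then 1 else 0 := fun i => by
      split_ifs with hi
      · exact Set.indicator_of_mem (show ω ∈ eP t x i k from ⟨hF.1, hF.2, hi⟩) _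
      · exact Set.indicator_of_notMem (fun h' => hi h'.2.2) _
    have h3 : ∀ i, (eM t x i k).indicator (1 : (V d → Bool × (ℕ → ℝ)) → ℝ≥0∞) ω =
        if sol ω x k ≠ nbv ω x i k then 1 else 0 := fun i => by
      split_ifs with hi
      · exact Set.indicator_of_mem (show ω ∈ eM t x i k from ⟨hF.1, hF.2, hi⟩) _
      · exact Set.indicator_of_notMem (fun h' => hi h'.2.2) _
    rw [Set.indicator_of_mem hF]
    simp only [h2, h3, sum_boole, Pi.one_apply]
    exact_mod_cast h1
  · have h2 : ∀ i, (eP t x i k).indicator (1 : (V d → Bool × (ℕ → ℝ)) → ℝ≥0∞) ω = 0 := fun i =>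
      Set.indicator_of_notMem (fun h' => hF ⟨h'.1, h'.2.1⟩) _
    rw [Set.indicator_of_notMem hF]
    simp [h2]

lemma flips_le (hd : Odd d) (p : unitInterval) (t : ℝ) :
    ∑' k, law d p (eF t (root d) k) ≤ d := by
  set μ := law d p with hμ
  set P : Fin d → ℝ≥0∞ := fun i => ∑' k, μ (eP t (root d) i k) with hP
  set M : Fin d → ℝ≥0∞ := fun i => ∑' k, μ (eM t (root d) i k) with hM
  have h1 : ∀ i, M i + M i ≤ P i + P i + 1 := by
    intro i
    have := lintegral_mono_ae (μ := μ)
      (f := fun ω => num (eM t (root d) i) ω + num (eM t (nb i (root d)) i) ω)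
      (g := fun ω => num (eP t (root d) i) ω + num (eP t (nb i (root d)) i) ω + 1) (by
        filter_upwards [reg_ae p, no_ties p] with ω h1 h2 using edge_ineq h1 h2 t _ i)
    rw [lintegral_add_left (measurable_num (measurableSet_eM _ _ _)),
      lintegral_add_right _ measurable_const,
      lintegral_add_left (measurable_num (measurableSet_eP _ _ _))] at this
    simp only [lintegral_num _ (measurableSet_eM _ _ _), lintegral_num _ (measurableSet_eP _ _ _),
      lintegral_const, measure_univ, mul_one] at this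
    simpa only [hμ, law_eM p t (nb i _), law_eP p t (nb i _)] using this
  have h2 : ∑' k, μ (eF t (root d) k) + ∑ i, P i ≤ ∑ i, M i := by
    have := lintegral_mono_ae (μ := μ)
      (f := fun ω => num (eF t (root d)) ω + ∑ i, num (eP t (root d) i) ω)
      (g := fun ω => ∑ i, num (eM t (root d) i) ω) (by
        filter_upwards [fd_ae p] with ω h1 using vertex_ineq hd (isSol_sol h1) t _)
    rw [lintegral_add_left (measurable_num (measurableSet_eF _ _)),
      lintegral_finsetSum _ (fun i _ => measurable_num (measurableSet_eP _ _ _)),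
      lintegral_finsetSum _ (fun i _ => measurable_num (measurableSet_eM _ _ _))] at this
    simpa only [lintegral_num _ (measurableSet_eM _ _ _), lintegral_num _ (measurableSet_eP _ _ _),
      lintegral_num _ (measurableSet_eF _ _)] using this
  have h3 : ∑ i, P i ≠ ∞ := by
    refine ENNReal.sum_ne_top.2 fun i _ => ne_top_of_le_ne_top (kap_tail t) ?_
    refine ENNReal.tsum_le_tsum fun k => ?_
    rw [← (mp_clock p (root d)).measure_preimage
      (measurableSet_lt (measurable_rg k) measurable_const).nullMeasurableSet]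
    exact measure_mono fun ω hω => hω.1
  have h4 : ∑ i, M i + ∑ i, M i ≤ ∑ i, P i + ∑ i, P i + d := by
    have := sum_le_sum fun i (_ : i ∈ univ) => h1 i
    simpa [sum_add_distrib] using this
  set F := ∑' k, μ (eF t (root d) k)
  have h5 : (∑ i, P i + ∑ i, P i) + (F + F) ≤ (∑ i, P i + ∑ i, P i) + d := by
    calc _ = (F + ∑ i, P i) + (F + ∑ i, P i) := by ring
      _ ≤ ∑ i, M i + ∑ i, M i := add_le_add h2 h2
      _ ≤ _ := h4
  exact le_self_add.trans ((ENNReal.add_le_add_iff_left (ENNReal.add_ne_top.2 ⟨h3, h3⟩)).1 h5)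

lemma fix_ae (hd : Odd d) (p : unitInterval) :
    ∀ᵐ ω ∂law d p, ∀ x, ∃ b, ∀ᶠ k in atTop, sol ω x k = b := by
  have h1 : ∑' k, law d p {ω | sol ω (root d) (k + 1) ≠ sol ω (root d) k} ≤ d := by
    rw [ENNReal.tsum_eq_iSup_sum]
    refine iSup_le fun s => ?_
    have hmono : ∀ k, Monotone fun n : ℕ => eF n (root d) k := fun k n m hnm ω hω =>
      ⟨hω.1.trans_le (by exact_mod_cast hnm), hω.2⟩
    have h2 : ∀ k, law d p {ω | sol ω (root d) (k + 1) ≠ sol ω (root d) k} =
        ⨆ n : ℕ, law d p (eF n (root d) k) := by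
      intro k
      rw [← (hmono k).measure_iUnion]
      congr 1; ext ω
      simp only [Set.mem_ofPred_eq, Set.mem_iUnion, eF]
      exact ⟨fun h => (exists_nat_gt (ring ω (root d) k)).imp fun n hn => ⟨hn, h⟩,
        fun ⟨_, h⟩ => h.2⟩
    simp only [h2]
    rw [ENNReal.finsetSum_iSup_of_monotone fun k _ _ h => measure_mono (hmono k h)]
    exact iSup_le fun n => (ENNReal.sum_le_tsum s).trans (flips_le hd p n)
  have h2 := ae_finite_setOfPred_mem (ne_top_of_le_ne_top (by simp) h1)
  refine ae_all_iff.2 fun x => ?_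
  filter_upwards [(mp_sh (nu p) x).quasiMeasurePreserving.ae h2] with ω hω
  simp only [sol_sh, rho_root] at hω
  obtain ⟨N, hN⟩ := hω.bddAbove
  refine ⟨sol ω x (N + 1), eventually_atTop.2 ⟨N + 1, fun k hk => ?_⟩⟩
  induction k, hk using Nat.le_induction with
  | base => rfl
  | succ k hk ih =>
    rw [← ih]
    by_contra h
    have := hN h
    omega

end Pool.Agent.P.MP_a7d87e_pr
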