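import Mathlib

namespace Pool.Agent.P.MP_a7d87e_pr

open Finset

variable {α : Type*} [Fintype α] [DecidableEq α]

lemma perm_count (B T : Finset α) :
    ((univ.filter fun π : Equiv.Perm α => ∀ a ∈ T, π a ∈ B).card : ℝ) *
      (Fintype.card α : ℝ) ^ T.card ≤ (B.card : ℝ) ^ T.card * Fintype.card (Equiv.Perm α) := by
  induction T using Finset.induction_on with
  | empty => simp
  | insert a T ha ih =>
    set E := univ.filter fun π : Equiv.Perm α => ∀ x ∈ T, π x ∈ B with hE
    set m := (univ.filter fun π : Equiv.Perm α => ∀ x ∈ insert a T, π x ∈ B).card with hm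
    have h1 : ∀ a' ∈ Tᶜ, (E.filter fun π => π a' ∈ B).card = m := by
      intro a' ha'
      have ha'' : a' ∉ T := mem_compl.1 ha'
      refine card_nbij' (fun π => π * Equiv.swap a a') (fun π => π * Equiv.swap a a') ?_ ?_ ?_ ?_
      · intro π hπ
        simp only [hE, coe_filter, mem_filter, mem_univ, true_and, Set.mem_ofPred_eq,
          mem_insert, forall_eq_or_imp, Equiv.Perm.coe_mul, Function.comp_apply,
          Equiv.swap_apply_left] at hπ ⊢
        refine ⟨hπ.2, fun x hx => ?_⟩
        rw [Equiv.swap_apply_of_ne_of_ne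
          (ne_of_mem_of_not_mem hx ha) (ne_of_mem_of_not_mem hx ha'')]
        exact hπ.1 x hx
      · intro π hπ
        simp only [hE, coe_filter, mem_filter, mem_univ, true_and, Set.mem_ofPred_eq,
          mem_insert, forall_eq_or_imp, Equiv.Perm.coe_mul, Function.comp_apply,
          Equiv.swap_apply_right] at hπ ⊢
        refine ⟨fun x hx => ?_, hπ.1⟩
        rw [Equiv.swap_apply_of_ne_of_ne
          (ne_of_mem_of_not_mem hx ha) (ne_of_mem_of_not_mem hx ha'')]
        exact hπ.2 x hx
      · intro π _; simp [mul_assoc]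
      · intro π _; simp [mul_assoc]
    have h2 : ∀ π ∈ E, (Tᶜ.filter fun a' => π a' ∈ B).card + T.card = B.card := by
      intro π hπ
      have h3 : ∀ x ∈ T, π x ∈ B := (mem_filter.1 hπ).2
      have h4 : (univ.filter fun a' => π a' ∈ B).card = B.card := by
        refine card_nbij' π π.symm ?_ ?_ ?_ ?_ <;> intro x hx <;> simp_all
      rw [← h4, ← card_union_of_disjoint]
      · congr 1; ext x
        by_cases hx : x ∈ T <;> simp [hx, h3]
      · exact disjoint_left.2 fun x hx hx' => (mem_compl.1 (mem_filter.1 hx).1) hx'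
    have h5 : Tᶜ.card * m + E.card * T.card = E.card * B.card := by
      have e1 : ∑ a' ∈ Tᶜ, (E.filter fun π => π a' ∈ B).card =
          ∑ π ∈ E, (Tᶜ.filter fun a' => π a' ∈ B).card := by
        simp only [card_filter]; exact sum_comm
      rw [sum_congr rfl h1, sum_const, smul_eq_mul] at e1
      have e2 := sum_congr rfl h2
      rw [sum_add_distrib, sum_const, sum_const, smul_eq_mul, smul_eq_mul] at e2
      omega
    have h6 : Tᶜ.card + T.card = Fintype.card α := by
      rw [add_comm]; exact card_add_card_compl T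
    have h7 : m ≤ E.card := card_le_card fun π hπ => by
      simp only [hE, mem_filter, mem_univ, true_and, mem_insert, forall_eq_or_imp] at hπ ⊢
      exact hπ.2
    have h8 : m * Fintype.card α ≤ E.card * B.card := by
      rw [← h6, ← h5]; nlinarith
    have h9 : (m : ℝ) * Fintype.card α ≤ E.card * B.card := by exact_mod_cast h8
    rw [card_insert_of_notMem ha, pow_succ', pow_succ']
    calc (m : ℝ) * (Fintype.card α * (Fintype.card α : ℝ) ^ T.card)
        = (m * Fintype.card α) * (Fintype.card α : ℝ) ^ T.card := by ring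
      _ ≤ (E.card * B.card) * (Fintype.card α : ℝ) ^ T.card := by gcongr
      _ = B.card * (E.card * (Fintype.card α : ℝ) ^ T.card) := by ring
      _ ≤ B.card * ((B.card : ℝ) ^ T.card * Fintype.card (Equiv.Perm α)) := by gcongr
      _ = _ := by ring

lemma perm_mgf [Nonempty α] (A B : Finset α) {l : ℝ} (hl : 1 ≤ l) :
    ∑ π : Equiv.Perm α, l ^ (A.filter fun a => π a ∈ B).card ≤
      Fintype.card (Equiv.Perm α) * Real.exp (l / Fintype.card α * (A.card * B.card)) := by
  have hn : (0 : ℝ) < Fintype.card α := by exact_mod_cast Fintype.card_pos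
  have h1 : ∀ π : Equiv.Perm α, l ^ (A.filter fun a => π a ∈ B).card =
      ∑ T ∈ A.powerset, if ∀ a ∈ T, π a ∈ B then (l - 1) ^ T.card else 0 := by
    intro π
    have : l ^ (A.filter fun a => π a ∈ B).card =
        ∏ a ∈ A, (1 + if π a ∈ B then l - 1 else 0) := by
      rw [← prod_const, prod_filter]
      refine prod_congr rfl fun a _ => ?_
      split_ifs <;> simp
    rw [this, prod_one_add]
    refine sum_congr rfl fun T _ => ?_
    rw [prod_ite_zero]; simp
  simp only [h1]
  rw [sum_comm]
  set x := (l - 1) * B.card / Fintype.card α with hx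
  have hx0 : 0 ≤ x := by have := sub_nonneg.2 hl; positivity
  calc _ ≤ ∑ T ∈ A.powerset, Fintype.card (Equiv.Perm α) * x ^ T.card := by
        refine sum_le_sum fun T _ => ?_
        rw [← sum_filter, sum_const, nsmul_eq_mul, hx, div_pow, mul_pow, ← mul_div_assoc,
          le_div_iff₀ (by positivity)]
        have h2 := mul_le_mul_of_nonneg_left (perm_count B T) (pow_nonneg (sub_nonneg.2 hl) T.card)
        linarith
    _ = Fintype.card (Equiv.Perm α) * (1 + x) ^ A.card := by
        rw [← mul_sum, ← prod_const, prod_one_add]; simp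
    _ ≤ _ := by
        gcongr
        calc (1 + x) ^ A.card ≤ Real.exp x ^ A.card := by
              gcongr; linarith [Real.add_one_le_exp x]
          _ = Real.exp (A.card * x) := (Real.exp_nat_mul _ _).symm
          _ ≤ _ := by
              rw [Real.exp_le_exp, hx]
              have : (0 : ℝ) ≤ A.card * B.card / Fintype.card α := by positivity
              calc (A.card : ℝ) * ((l - 1) * B.card / Fintype.card α) =
                  l / Fintype.card α * (A.card * B.card) - A.card * B.card / Fintype.card α := by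
                    ring
                _ ≤ _ := by linarith

/-- First moment bound: a good choice of permutations along the edges of a finite base graph. -/
lemma exists_lift [Nonempty α] {W I : Type*} [Fintype W] [DecidableEq W] [Fintype I]
    [DecidableEq I] (src tgt : I → W) {l : ℝ} (hl : 1 ≤ l) :
    ∃ π : I → Equiv.Perm α, ∀ A : W → Finset α,
      Real.log l * ∑ e, (((A (src e)).filter fun a => π e a ∈ A (tgt e)).card : ℝ) ≤
        Real.log l * ∑ w, ((A w).card : ℝ) +
        l / Fintype.card α * ∑ e, ((A (src e)).card * (A (tgt e)).card : ℝ) +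
        (Fintype.card α * Fintype.card W / l + 1) := by
  by_contra hcon
  push Not at hcon
  have hl0 : 0 < l := by linarith
  set c : ℝ := Fintype.card α * Fintype.card W / l + 1 with hc
  set N : ℝ := ((Fintype.card (Equiv.Perm α) : ℕ) : ℝ) with hN
  have hN0 : 0 < N := by rw [hN]; exact_mod_cast Fintype.card_pos
  let F : (I → Equiv.Perm α) → (W → Finset α) → ℝ := fun π A =>
    (∏ e, l ^ ((A (src e)).filter fun a => π e a ∈ A (tgt e)).card *
      Real.exp (-(l / Fintype.card α * ((A (src e)).card * (A (tgt e)).card)))) *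
      ((∏ w, l⁻¹ ^ (A w).card) * Real.exp (-c))
  have hF0 : ∀ π A, 0 ≤ F π A := fun π A => by positivity
  have h1 : ∀ π, 1 ≤ ∑ A, F π A := by
    intro π
    obtain ⟨A, hA⟩ := hcon π
    refine le_trans ?_ (single_le_sum (fun A _ => hF0 π A) (mem_univ A))
    have e1 : ∀ k : ℕ, l ^ k = Real.exp (Real.log l * k) := fun k => by
      rw [mul_comm, Real.exp_nat_mul, Real.exp_log hl0]
    have e2 : ∀ k : ℕ, l⁻¹ ^ k = Real.exp (-(Real.log l * k)) := fun k => by
      rw [Real.exp_neg, ← e1, inv_pow]
    simp only [F, e1, e2, ← Real.exp_add, ← Real.exp_sum, Real.one_le_exp_iff, sum_add_distrib,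
      sum_neg_distrib, ← mul_sum]
    linarith
  have h2 : ∀ A, ∑ π, F π A ≤ N ^ Fintype.card I * ((∏ w, l⁻¹ ^ (A w).card) * Real.exp (-c)) := by
    intro A
    simp only [F]
    rw [← sum_mul]
    gcongr
    rw [← Fintype.piFinset_univ, ← prod_univ_sum (fun _ : I => (univ : Finset (Equiv.Perm α)))
      (fun e π => l ^ ((A (src e)).filter fun a => π a ∈ A (tgt e)).card *
        Real.exp (-(l / Fintype.card α * ((A (src e)).card * (A (tgt e)).card)))),
      ← card_univ (α := I), ← prod_const]
    refine prod_le_prod (fun e _ => by positivity) fun e _ => ?_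
    rw [← sum_mul, Real.exp_neg, ← div_eq_mul_inv, div_le_iff₀ (Real.exp_pos _)]
    exact perm_mgf _ _ hl
  have h3 : ∑ A : W → Finset α, ∏ w, l⁻¹ ^ (A w).card ≤ Real.exp (c - 1) := by
    rw [← Fintype.piFinset_univ, ← prod_univ_sum (fun _ : W => (univ : Finset (Finset α)))
      (fun _ B => l⁻¹ ^ B.card)]
    have e1 : ∑ B : Finset α, l⁻¹ ^ B.card = (1 + l⁻¹) ^ Fintype.card α := by
      rw [← card_univ, ← prod_const, prod_one_add]; simp
    simp only [e1, prod_const, card_univ, ← pow_mul]
    calc (1 + l⁻¹) ^ (Fintype.card α * Fintype.card W)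
        ≤ Real.exp l⁻¹ ^ (Fintype.card α * Fintype.card W) := by
          gcongr; linarith [Real.add_one_le_exp l⁻¹]
      _ = _ := by
          rw [← Real.exp_nat_mul, hc]; congr 1; push_cast; ring
  have h4 : N ^ Fintype.card I ≤ N ^ Fintype.card I * Real.exp (-1) := by
    calc N ^ Fintype.card I = ∑ _π : I → Equiv.Perm α, (1 : ℝ) := by simp [hN]
      _ ≤ ∑ π, ∑ A, F π A := sum_le_sum fun π _ => h1 π
      _ = ∑ A, ∑ π, F π A := sum_comm
      _ ≤ ∑ A : W → Finset α, N ^ Fintype.card I *
            ((∏ w, l⁻¹ ^ (A w).card) * Real.exp (-c)) := sum_le_sum fun A _ => h2 A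
      _ = N ^ Fintype.card I * ((∑ A : W → Finset α, ∏ w, l⁻¹ ^ (A w).card) * Real.exp (-c)) := by
          rw [← mul_sum, sum_mul]
      _ ≤ N ^ Fintype.card I * (Real.exp (c - 1) * Real.exp (-c)) := by gcongr
      _ = _ := by rw [← Real.exp_add]; congr 2; ring
  have h5 : Real.exp (-1) < 1 := Real.exp_lt_one_iff.2 (by norm_num)
  have h6 : 0 < N ^ Fintype.card I := by positivity
  nlinarith

end Pool.Agent.P.MP_a7d87e_pr
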