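import Pool.Agent.P.MP_a7d87e_pr.Spec
import Pool.Agent.P.MP_a7d87e_pr.Perm

namespace Pool.Agent.P.MP_a7d87e_pr

open Finset MeasureTheory ProbabilityTheory
open scoped symmDiff

variable {d : ℕ}

lemma finite_ball (N : ℕ) : {y : V d | dep y ≤ N}.Finite :=
  (List.finite_length_le (Fin d) N).preimage (f := fun y : V d => y.1)
    Subtype.val_injective.injOn

/-- A finite base in which all balls of radius `N` inject. -/
lemma exists_base (d N : ℕ) : ∃ (W : Type) (_ : Fintype W) (_ : DecidableEq W) (_ : Nonempty W)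
    (σ : Fin d → W → W), (∀ i g, σ i (σ i g) = g) ∧ ∀ (g : W) (y y' : V d), dep y ≤ N →
      dep y' ≤ N → y.1.foldr σ g = y'.1.foldr σ g → y = y' := by
  classical
  let B := {y : V d // dep y ≤ N}
  have : Finite B := (finite_ball N).to_subtype
  let _ : Fintype B := Fintype.ofFinite B
  let t : Fin d → B → B := fun i x => if h : dep (nb i x.1) ≤ N then ⟨nb i x.1, h⟩ else x
  have ht : ∀ i, Function.Involutive (t i) := by
    intro i x
    by_cases h : dep (nb i x.1) ≤ N
    · have h1 : t i x = ⟨nb i x.1, h⟩ := dif_pos h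
      have h2 : dep (nb i (nb i x.1)) ≤ N := by rw [nb_nb]; exact x.2
      rw [h1]
      exact (dif_pos h2).trans (Subtype.ext (nb_nb i x.1))
    · have h1 : t i x = x := dif_neg h
      rw [h1, h1]
  let o : B := ⟨root d, Nat.zero_le _⟩
  refine ⟨Equiv.Perm B, inferInstance, inferInstance, inferInstance,
    fun i g => (ht i).toPerm * g, fun i g => ?_, ?_⟩
  · ext x
    simp [ht i (g x)]
  · intro g
    have key : ∀ (l : List (Fin d)) (hl : l.IsChain (· ≠ ·)), l.length ≤ N →
        ((l.foldr (fun i g => (ht i).toPerm * g) g) (g⁻¹ o)).1 = ⟨l, hl⟩ := by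
      intro l
      induction l with
      | nil => intro _ _; simp [o, root]
      | cons a l ih =>
        intro hl hN
        have h := List.isChain_cons.1 hl
        have e := ih h.2 (by simp at hN; omega)
        have e2 : nb a (⟨l, h.2⟩ : V d) = ⟨a :: l, hl⟩ := by
          apply Subtype.ext
          rw [nb_val_of_not]
          intro h3
          exact h.1 a h3 rfl
        simp only [List.foldr_cons, Equiv.Perm.coe_mul, Function.comp_apply,
          Function.Involutive.coe_toPerm, t, e, e2]
        rw [dif_pos (show dep (⟨a :: l, hl⟩ : V d) ≤ N from hN)]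
    intro y y' hy hy' h
    have h1 := key y.1 y.2 hy
    rw [h, key y'.1 y'.2 hy'] at h1
    exact h1.symm

section Cover

variable {U : Type*} (S : Fin d → U → U) (hS : ∀ i u, S i (S i u) = u)

/-- the covering map sending the root to `u` -/
def cov (u : U) (y : V d) : U := y.1.foldr S u

include hS in
lemma cov_nb (u : U) (i : Fin d) (x : V d) : cov S u (nb i x) = S i (cov S u x) := by
  unfold cov
  by_cases h : x.1.head? = some i
  · rw [nb_val_of_head h]
    obtain ⟨l, hl⟩ := x
    cases l with
    | nil => simp at h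
    | cons a t =>
      simp only [List.head?_cons, Option.some.injEq] at h
      subst h
      simp [hS]
  · rw [nb_val_of_not h]; rfl

include hS in
lemma cov_rho (u : U) (z y : V d) : cov S u (rho z y) = cov S (cov S u z) y := by
  have : ∀ l : List (Fin d), cov S u (act l z) = l.foldr S (cov S u z) := by
    intro l
    induction l with
    | nil => rfl
    | cons a l ih => rw [act_cons, cov_nb S hS, ih]; rfl
  exact this y.1

include hS in
lemma cov_inj (y : V d) : Function.Injective fun u => cov S u y := by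
  have : ∀ l : List (Fin d), Function.Injective fun u => l.foldr S u := by
    intro l
    induction l with
    | nil => exact fun _ _ h => h
    | cons a l ih => exact fun u v h => ih (Function.Involutive.injective (hS a) h)
  exact this y.1

end Cover

section Meas

variable {E : Type*} [MeasurableSpace E] (ν : Measure E) [IsProbabilityMeasure ν]

lemma pull_cyl {U : Type*} (J : Finset (V d)) (T : Set (J → E)) (hT : MeasurableSet T)
    (f : V d → U) (hf : Set.InjOn f J) :
    (Measure.infinitePi fun _ : U => ν) {ω | (fun y => ω (f y)) ∈ cylinder J T} =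
      (Measure.infinitePi fun _ : V d => ν) (cylinder J T) := by
  have h1 := Measure.map_infinitePi_infinitePi_of_inj (P := fun _ : U => ν)
    (f := fun j : J => f j) fun a b h => Subtype.ext (hf a.2 b.2 h)
  have h2 := Measure.map_infinitePi_infinitePi_of_inj (P := fun _ : V d => ν)
    (f := fun j : J => (j : V d)) Subtype.val_injective
  have h3 := congrArg (fun m => m T) (h1.trans h2.symm)
  rw [Measure.map_apply (by fun_prop) hT, Measure.map_apply (by fun_prop) hT] at h3
  exact h3

lemma pull_indep {U : Type*} [DecidableEq U] (J : Finset (V d)) (T : Set (J → E))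
    (hT : MeasurableSet T) (f f' : V d → U) (hf : ∀ y ∈ J, ∀ y' ∈ J, f y ≠ f' y') :
    (Measure.infinitePi fun _ : U => ν) ({ω | (fun y => ω (f y)) ∈ cylinder J T} ∩
      {ω | (fun y => ω (f' y)) ∈ cylinder J T}) =
      (Measure.infinitePi fun _ : U => ν) {ω | (fun y => ω (f y)) ∈ cylinder J T} *
      (Measure.infinitePi fun _ : U => ν) {ω | (fun y => ω (f' y)) ∈ cylinder J T} := by
  have hd : Disjoint (J.image f) (J.image f') := by
    rw [Finset.disjoint_left]
    intro a ha ha'
    obtain ⟨y, hy, rfl⟩ := mem_image.1 ha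
    obtain ⟨y', hy', e⟩ := mem_image.1 ha'
    exact hf y hy y' hy' e.symm
  have hi := (iIndepFun_infinitePi (P := fun _ : U => ν) (X := fun _ e => e)
    (fun _ => measurable_id)).indepFun_finset _ _ hd (fun i => measurable_pi_apply i)
  let φ : (J.image f → E) → J → E := fun η j => η ⟨f j, mem_image_of_mem _ j.2⟩
  let φ' : (J.image f' → E) → J → E := fun η j => η ⟨f' j, mem_image_of_mem _ j.2⟩
  have hφ : Measurable φ := by unfold φ; fun_prop
  have hφ' : Measurable φ' := by unfold φ'; fun_prop
  exact hi.measure_inter_preimage_eq_mul (φ ⁻¹' T) (φ' ⁻¹' T) (hφ hT) (hφ' hT)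

lemma sh_cyl (z : V d) {C : Set (V d → E)} (hC : C ∈ measurableCylinders fun _ : V d => E) :
    sh z ⁻¹' C ∈ measurableCylinders fun _ : V d => E := by
  obtain ⟨J, T, hT, rfl⟩ := (mem_measurableCylinders _).1 hC
  let φ : (J.image (rho z) → E) → J → E := fun η j => η ⟨rho z j, mem_image_of_mem _ j.2⟩
  have hφ : Measurable φ := by unfold φ; fun_prop
  exact (mem_measurableCylinders _).2 ⟨J.image (rho z), φ ⁻¹' T, hφ hT, rfl⟩

lemma ent_cyl {l : ℝ} (hl : 1 ≤ l) (C : Set (V d → E))
    (hC : C ∈ measurableCylinders fun _ : V d => E) :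
    Real.log l * ∑ i, (Measure.infinitePi fun _ : V d => ν).real
        (C ∩ sh (nb i (root d)) ⁻¹' C) ≤
      2 * Real.log l * (Measure.infinitePi fun _ : V d => ν).real C +
        d * l * (Measure.infinitePi fun _ : V d => ν).real C ^ 2 + 2 / l := by
  classical
  set μ := Measure.infinitePi fun _ : V d => ν with hμ
  have hl0 : 0 < l := by linarith
  have hL : 0 ≤ Real.log l := Real.log_nonneg hl
  have hCm : MeasurableSet C := MeasurableSet.of_mem_measurableCylinders hC
  choose Ji Ti hTi hJi using fun i : Fin d => (mem_measurableCylinders _).1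
    (inter_mem_measurableCylinders hC (sh_cyl (nb i (root d)) hC))
  obtain ⟨J, T, hT, hJ⟩ := (mem_measurableCylinders _).1 hC
  obtain ⟨N, hN1, hN2⟩ : ∃ N, (∀ y ∈ J, dep y ≤ N) ∧ ∀ i, ∀ y ∈ Ji i, dep y ≤ N := by
    refine ⟨(J ∪ univ.biUnion Ji).sup dep, fun y hy => le_sup (f := dep) (by simp [hy]),
      fun i y hy => le_sup (f := dep) ?_⟩
    simp only [mem_union, mem_biUnion, mem_univ, true_and]
    exact Or.inr ⟨i, hy⟩
  obtain ⟨W, _, _, _, σ, hσ, hinj⟩ := exists_base d N
  set β := μ.real C with hβ
  set η := ∑ i, μ.real (C ∩ sh (nb i (root d)) ⁻¹' C) with hη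
  have hW : (1 : ℝ) ≤ Fintype.card W := by exact_mod_cast Fintype.card_pos
  have main : ∀ n : ℕ, 0 < n → Real.log l * η ≤
      2 * Real.log l * β + d * l * β ^ 2 + 2 / l + (d * l + 1) / n := by
    intro n hn
    have : Nonempty (Fin n) := ⟨⟨0, hn⟩⟩
    have hn' : (0 : ℝ) < n := by exact_mod_cast hn
    obtain ⟨π, hπ⟩ := exists_lift (α := Fin n) (W := W × Bool) (I := W × Fin d)
      (fun e => (e.1, false)) (fun e => (σ e.2 e.1, true)) hl
    let S : Fin d → (W × Bool) × Fin n → (W × Bool) × Fin n := fun i u =>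
      match u with
      | ((g, false), a) => ((σ i g, true), π (g, i) a)
      | ((g, true), a) => ((σ i g, false), (π (σ i g, i))⁻¹ a)
    have hS : ∀ i u, S i (S i u) = u := by
      rintro i ⟨⟨g, _ | _⟩, a⟩ <;> simp [S, hσ]
    have hproj : ∀ (u : (W × Bool) × Fin n) (y : V d), (cov S u y).1.1 = y.1.foldr σ u.1.1 := by
      intro u y
      unfold cov
      induction y.1 with
      | nil => rfl
      | cons a l ih =>
        simp only [List.foldr_cons, ← ih]
        rcases List.foldr S u l with ⟨⟨g, _ | _⟩, a⟩ <;> rfl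
    have hci : ∀ u u' : (W × Bool) × Fin n, u.1 = u'.1 → ∀ y y', dep y ≤ N → dep y' ≤ N →
        cov S u y = cov S u' y' → y = y' ∧ u = u' := by
      intro u u' hu y y' hy hy' h
      have h1 : y = y' := hinj u.1.1 y y' hy hy' (by rw [← hproj, h, hproj, hu])
      subst h1
      exact ⟨rfl, cov_inj S hS y h⟩
    set P := Measure.infinitePi fun _ : (W × Bool) × Fin n => ν with hP
    let D : (W × Bool) × Fin n → Set ((W × Bool) × Fin n → E) := fun u =>
      {ω | (fun y => ω (cov S u y)) ∈ C}
    have hD : ∀ u, MeasurableSet (D u) := fun u =>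
      (show Measurable fun (ω : (W × Bool) × Fin n → E) y => ω (cov S u y) by fun_prop) hCm
    have p1 : ∀ u, P.real (D u) = β := by
      intro u
      simp only [D, hβ, measureReal_def, hJ]
      rw [pull_cyl ν J T hT _ fun y hy y' hy' h => (hci u u rfl y y' (hN1 y hy) (hN1 y' hy') h).1]
    have p2 : ∀ u i, P.real (D u ∩ D (S i u)) = μ.real (C ∩ sh (nb i (root d)) ⁻¹' C) := by
      intro u i
      have e : D u ∩ D (S i u) =
          {ω | (fun y => ω (cov S u y)) ∈ C ∩ sh (nb i (root d)) ⁻¹' C} := by
        ext ω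
        have : sh (nb i (root d)) (fun y => ω (cov S u y)) = fun y => ω (cov S (S i u) y) := by
          funext y
          simp only [sh]
          rw [cov_rho S hS, cov_nb S hS]; rfl
        simp only [D, Set.mem_inter_iff, Set.mem_ofPred_eq, Set.mem_preimage, this]
      rw [e, hJi i, measureReal_def, measureReal_def, pull_cyl ν _ _ (hTi i) _
        fun y hy y' hy' h => (hci u u rfl y y' (hN2 i y hy) (hN2 i y' hy') h).1]
    have p3 : ∀ w a a', P.real (D (w, a) ∩ D (w, a')) ≤ β ^ 2 + if a = a' then 1 else 0 := by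
      intro w a a'
      split_ifs with h
      · have : P.real (D (w, a) ∩ D (w, a')) ≤ 1 := measureReal_le_one
        nlinarith
      · have h1 := pull_indep ν J T hT (cov S (w, a)) (cov S (w, a')) fun y hy y' hy' e =>
          h (congrArg Prod.snd (hci (w, a) (w, a') rfl y y' (hN1 y hy) (hN1 y' hy') e).2)
        rw [← hJ] at h1
        rw [measureReal_def, h1, ENNReal.toReal_mul, ← measureReal_def, ← measureReal_def, p1, p1]
        linarith
    let X : Set ((W × Bool) × Fin n → E) → ((W × Bool) × Fin n → E) → ℝ := fun s =>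
      s.indicator fun _ => 1
    have hXi : ∀ s, MeasurableSet s → Integrable (X s) P := fun s hs =>
      (integrable_const _).indicator hs
    have hXe : ∀ s, MeasurableSet s → ∫ ω, X s ω ∂P = P.real s := fun s hs => by
      simp only [X]; rw [integral_indicator hs]; simp
    have hpt : ∀ ω, Real.log l * ∑ e : W × Fin d, ∑ a,
        X (D ((e.1, false), a) ∩ D (S e.2 ((e.1, false), a))) ω ≤
        Real.log l * ∑ w, ∑ a, X (D (w, a)) ω +
        l / n * ∑ e : W × Fin d,
          (∑ a, ∑ a', X (D ((e.1, false), a) ∩ D ((e.1, false), a')) ω +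
           ∑ a, ∑ a', X (D ((σ e.2 e.1, true), a) ∩ D ((σ e.2 e.1, true), a')) ω) / 2 +
        (n * (Fintype.card W * 2) / l + 1) := by
      intro ω
      have h1 := hπ fun w => univ.filter fun a => ω ∈ D (w, a)
      have c1 : ∀ w, ((univ.filter fun a => ω ∈ D (w, a)).card : ℝ) = ∑ a, X (D (w, a)) ω := by
        intro w; simp [X, Set.indicator]
      have c2 : ∀ w, ∑ a, ∑ a', X (D (w, a) ∩ D (w, a')) ω = (∑ a, X (D (w, a)) ω) ^ 2 := by
        intro w
        rw [sq, sum_mul_sum]
        refine sum_congr rfl fun a _ => sum_congr rfl fun a' _ => ?_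
        by_cases h : ω ∈ D (w, a) <;> by_cases h' : ω ∈ D (w, a') <;> simp [X, h, h']
      have c3 : ∀ e : W × Fin d, (((univ.filter fun a => ω ∈ D ((e.1, false), a)).filter
          fun a => π e a ∈ univ.filter fun a => ω ∈ D ((σ e.2 e.1, true), a)).card : ℝ) =
          ∑ a, X (D ((e.1, false), a) ∩ D (S e.2 ((e.1, false), a))) ω := by
        intro e; simp [X, Set.indicator, S, filter_filter]
      simp only [c1, c3, Fintype.card_fin, Fintype.card_prod, Fintype.card_bool, Nat.cast_mul,
        Nat.cast_ofNat] at h1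
      simp only [c2]
      refine h1.trans ?_
      gcongr with e
      nlinarith [sq_nonneg (∑ a, X (D ((e.1, false), a)) ω - ∑ a, X (D ((σ e.2 e.1, true), a)) ω)]
    have i2 : ∀ w, Integrable (fun ω => ∑ a, ∑ a', X (D (w, a) ∩ D (w, a')) ω) P := fun w =>
      integrable_finsetSum _ fun a _ => integrable_finsetSum _ fun a' _ =>
        hXi _ ((hD _).inter (hD _))
    have e2 : ∀ w, ∫ ω, ∑ a, ∑ a', X (D (w, a) ∩ D (w, a')) ω ∂P ≤ n ^ 2 * β ^ 2 + n := by
      intro w
      rw [integral_finsetSum _ fun a _ => integrable_finsetSum _ fun a' _ =>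
        hXi _ ((hD _).inter (hD _))]
      calc _ ≤ ∑ a : Fin n, ∑ a' : Fin n, (β ^ 2 + if a = a' then 1 else 0) := by
            refine sum_le_sum fun a _ => ?_
            rw [integral_finsetSum _ fun a' _ => hXi _ ((hD _).inter (hD _))]
            exact sum_le_sum fun a' _ => (hXe _ ((hD _).inter (hD _))).trans_le (p3 w a a')
        _ = _ := by simp [sum_add_distrib]; ring
    have i1 : ∀ e : W × Fin d, Integrable (fun ω => ∑ a,
        X (D ((e.1, false), a) ∩ D (S e.2 ((e.1, false), a))) ω) P := fun e =>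
      integrable_finsetSum _ fun a _ => hXi _ ((hD _).inter (hD _))
    have i3 : ∀ w, Integrable (fun ω => ∑ a, X (D (w, a)) ω) P := fun w =>
      integrable_finsetSum _ fun a _ => hXi _ (hD _)
    have i4 : ∀ e : W × Fin d, Integrable (fun ω =>
        (∑ a, ∑ a', X (D ((e.1, false), a) ∩ D ((e.1, false), a')) ω +
           ∑ a, ∑ a', X (D ((σ e.2 e.1, true), a) ∩ D ((σ e.2 e.1, true), a')) ω) / 2) P :=
      fun e => ((i2 _).add (i2 _)).div_const 2
    have j3 := (integrable_finsetSum univ fun w _ => i3 w).const_mul (Real.log l)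
    have j4 := (integrable_finsetSum univ fun e _ => i4 e).const_mul (l / n)
    have h := integral_mono ((integrable_finsetSum univ fun e _ => i1 e).const_mul (Real.log l))
      ((j3.add j4).add (integrable_const _)) hpt
    rw [integral_add' (j3.add j4) (integrable_const _), integral_add' j3 j4, integral_const_mul,
      integral_const_mul, integral_const_mul, integral_finsetSum _ fun e _ => i1 e,
      integral_finsetSum _ fun e _ => i3 e, integral_finsetSum _ fun e _ => i4 e] at h
    have f1 : ∑ e : W × Fin d, ∫ ω, ∑ a,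
        X (D ((e.1, false), a) ∩ D (S e.2 ((e.1, false), a))) ω ∂P = Fintype.card W * n * η := by
      have : ∀ e : W × Fin d, ∫ ω, ∑ a,
          X (D ((e.1, false), a) ∩ D (S e.2 ((e.1, false), a))) ω ∂P =
          n * μ.real (C ∩ sh (nb e.2 (root d)) ⁻¹' C) := by
        intro e
        rw [integral_finsetSum _ fun a _ => hXi _ ((hD _).inter (hD _))]
        simp [hXe _ ((hD _).inter (hD _)), p2]
      simp only [this, Fintype.sum_prod_type, ← mul_sum, ← hη]
      simp; ring
    have f3 : ∑ w : W × Bool, ∫ ω, ∑ a, X (D (w, a)) ω ∂P = Fintype.card W * 2 * n * β := by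
      have : ∀ w : W × Bool, ∫ ω, ∑ a, X (D (w, a)) ω ∂P = n * β := by
        intro w
        rw [integral_finsetSum _ fun a _ => hXi _ (hD _)]
        simp [hXe _ (hD _), p1]
      simp [this]; ring
    have f4 : ∑ e : W × Fin d, ∫ ω,
        (∑ a, ∑ a', X (D ((e.1, false), a) ∩ D ((e.1, false), a')) ω +
          ∑ a, ∑ a', X (D ((σ e.2 e.1, true), a) ∩ D ((σ e.2 e.1, true), a')) ω) / 2 ∂P ≤
        Fintype.card W * d * (n ^ 2 * β ^ 2 + n) := by
      calc _ ≤ ∑ _e : W × Fin d, ((n : ℝ) ^ 2 * β ^ 2 + n) := by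
            refine sum_le_sum fun e _ => ?_
            rw [integral_div, integral_add (i2 _) (i2 _)]
            linarith [e2 (e.1, false), e2 (σ e.2 e.1, true)]
        _ = _ := by simp; ring
    rw [f1, f3] at h
    simp only [integral_const, probReal_univ, smul_eq_mul, one_mul] at h
    have f5 := mul_le_mul_of_nonneg_left f4 (show 0 ≤ l / n by positivity)
    have hWn : (0 : ℝ) < Fintype.card W * n := by positivity
    refine le_of_mul_le_mul_left ?_ hWn
    have g1 : l / n * (Fintype.card W * d * (n ^ 2 * β ^ 2 + n)) =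
        Fintype.card W * n * (d * l * β ^ 2) + Fintype.card W * (d * l) := by
      field_simp
    have g2 : Fintype.card W * n * (2 * Real.log l * β + d * l * β ^ 2 + 2 / l + (d * l + 1) / n) =
        Real.log l * (Fintype.card W * 2 * n * β) + Fintype.card W * n * (d * l * β ^ 2) +
          n * (Fintype.card W * 2) / l + Fintype.card W * (d * l) + Fintype.card W := by
      field_simp
      ring
    rw [g2]
    linarith
  refine le_of_forall_pos_le_add fun ε hε => ?_
  obtain ⟨n, hn⟩ := exists_nat_gt ((d * l + 1) / ε)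
  have hn0 : (0 : ℝ) < n := lt_of_le_of_lt (by positivity) hn
  have h1 := main n (by exact_mod_cast hn0)
  have h2 : (d * l + 1) / n ≤ ε := by
    rw [div_le_iff₀ hn0]; rw [div_lt_iff₀ hε] at hn; linarith
  linarith

lemma ent_set {l : ℝ} (hl : 1 ≤ l) (A : Set (V d → E)) (hA : MeasurableSet A) :
    Real.log l * ∑ i, (Measure.infinitePi fun _ : V d => ν).real
        (A ∩ sh (nb i (root d)) ⁻¹' A) ≤
      2 * Real.log l * (Measure.infinitePi fun _ : V d => ν).real A +
        d * l * (Measure.infinitePi fun _ : V d => ν).real A ^ 2 + 2 / l := by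
  set μ := Measure.infinitePi fun _ : V d => ν with hμ
  have hL : 0 ≤ Real.log l := Real.log_nonneg hl
  have hd := Measure.MeasureDense.of_generateFrom_isSetAlgebra_finite μ
    (isSetAlgebra_measurableCylinders (α := fun _ : V d => E))
    generateFrom_measurableCylinders.symm
  refine le_of_forall_pos_le_add fun ε hε => ?_
  have hK : 0 < 2 * d * Real.log l + 2 * Real.log l + 2 * d * l + 1 := by positivity
  obtain ⟨B, hB, hAB⟩ := hd.approx A hA (measure_ne_top _ _)
    (ε / (2 * d * Real.log l + 2 * Real.log l + 2 * d * l + 1)) (by positivity)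
  set η := μ.real (A ∆ B) with hη
  have hη1 : η ≤ ε / (2 * d * Real.log l + 2 * Real.log l + 2 * d * l + 1) :=
    ENNReal.toReal_le_of_le_ofReal (by positivity) hAB.le
  have hBm : MeasurableSet B := MeasurableSet.of_mem_measurableCylinders hB
  have h1 := ent_cyl ν hl B hB
  rw [← hμ] at h1
  have h2 : μ.real B ≤ μ.real A + η := by
    refine le_trans (measureReal_mono (s₂ := A ∪ A ∆ B) ?_) (measureReal_union_le _ _)
    intro ω; simp only [Set.mem_union, Set.mem_symmDiff]; tauto
  have h3 : ∀ x : V d, μ.real (A ∩ sh x ⁻¹' A) ≤ μ.real (B ∩ sh x ⁻¹' B) + 2 * η := by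
    intro x
    have e : μ.real (sh x ⁻¹' (A ∆ B)) = η :=
      (mp_sh ν x).measureReal_preimage (hA.symmDiff hBm).nullMeasurableSet
    calc μ.real (A ∩ sh x ⁻¹' A)
        ≤ μ.real ((B ∩ sh x ⁻¹' B) ∪ (sh x ⁻¹' (A ∆ B) ∪ A ∆ B)) := by
          refine measureReal_mono ?_
          intro ω
          simp only [Set.mem_union, Set.mem_symmDiff, Set.mem_inter_iff, Set.mem_preimage]
          tauto
      _ ≤ μ.real (B ∩ sh x ⁻¹' B) + (μ.real (sh x ⁻¹' (A ∆ B)) + μ.real (A ∆ B)) :=
          (measureReal_union_le _ _).trans (by gcongr; exact measureReal_union_le _ _)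
      _ = _ := by rw [e]; ring
  have h4 : ∑ i, μ.real (A ∩ sh (nb i (root d)) ⁻¹' A) ≤
      ∑ i, μ.real (B ∩ sh (nb i (root d)) ⁻¹' B) + d * (2 * η) := by
    have := sum_le_sum fun i (_ : i ∈ univ) => h3 (nb i (root d))
    simpa [sum_add_distrib] using this
  have hA0 : 0 ≤ μ.real A := measureReal_nonneg
  have hA1 : μ.real A ≤ 1 := measureReal_le_one
  have hB0 : 0 ≤ μ.real B := measureReal_nonneg
  have hB1 : μ.real B ≤ 1 := measureReal_le_one
  have hη0 : 0 ≤ η := measureReal_nonneg
  have h5 : μ.real B ^ 2 ≤ μ.real A ^ 2 + 2 * η := by nlinarith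
  have h6 : (2 * d * Real.log l + 2 * Real.log l + 2 * d * l + 1) * η ≤ ε := by
    rwa [le_div_iff₀' hK] at hη1
  have h7 := mul_le_mul_of_nonneg_left h5 (show (0 : ℝ) ≤ d * l by positivity)
  have h8 := mul_le_mul_of_nonneg_left h2 hL
  have h9 := mul_le_mul_of_nonneg_left h4 hL
  nlinarith

/-- The density gap: a factor-of-iid set in which each vertex has at least three neighbours
in the set has density zero or at least `exp (-(d + 2))`. -/
theorem gap3 (A : Set (V d → E)) [DecidablePred (· ∈ A)] (hA : MeasurableSet A)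
    (hmin : ∀ᵐ ω ∂(Measure.infinitePi fun _ : V d => ν), ω ∈ A →
      3 ≤ (univ.filter fun i : Fin d => sh (nb i (root d)) ω ∈ A).card) :
    (Measure.infinitePi fun _ : V d => ν).real A = 0 ∨
      Real.exp (-(d + 2)) ≤ (Measure.infinitePi fun _ : V d => ν).real A := by
  set μ := Measure.infinitePi fun _ : V d => ν with hμ
  have hAx : ∀ i : Fin d, MeasurableSet (A ∩ sh (nb i (root d)) ⁻¹' A) := fun i =>
    hA.inter (measurable_sh _ hA)
  have h2 : 3 * μ.real A ≤ ∑ i, μ.real (A ∩ sh (nb i (root d)) ⁻¹' A) := by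
    have e1 : ∀ i ∈ univ, μ.real (A ∩ sh (nb i (root d)) ⁻¹' A) =
        ∫ ω, (A ∩ sh (nb i (root d)) ⁻¹' A).indicator (fun _ => (1 : ℝ)) ω ∂μ := by
      intro i _
      rw [integral_indicator (hAx i)]; simp
    have e2 : 3 * μ.real A = ∫ ω, A.indicator (fun _ => (3 : ℝ)) ω ∂μ := by
      rw [integral_indicator hA]; simp [mul_comm]
    have i1 : ∀ i ∈ univ, Integrable
        ((A ∩ sh (nb i (root d)) ⁻¹' A).indicator (fun _ => (1 : ℝ))) μ :=
      fun i _ => (integrable_const _).indicator (hAx i)
    rw [sum_congr rfl e1, e2, ← integral_finsetSum _ i1]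
    refine integral_mono_ae ((integrable_const _).indicator hA) (integrable_finsetSum _ i1) ?_
    filter_upwards [hmin] with ω hω
    by_cases hωA : ω ∈ A
    · simpa [Set.indicator, hωA] using hω hωA
    · simp [Set.indicator, hωA]
  rcases (measureReal_nonneg (μ := μ) (s := A)).eq_or_lt with h0 | h0
  · exact Or.inl h0.symm
  · right
    set θ := μ.real A with hθ
    have hθ1 : θ ≤ 1 := measureReal_le_one
    have hl : 1 ≤ θ⁻¹ := (one_le_inv₀ h0).2 hθ1
    have h1 := ent_set ν hl A hA
    rw [← hμ, ← hθ] at h1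
    have h3 := mul_le_mul_of_nonneg_left h2 (Real.log_nonneg hl)
    have h4 : d * θ⁻¹ * θ ^ 2 = d * θ := by field_simp
    have h5 : 2 / θ⁻¹ = 2 * θ := by field_simp
    have h6 : θ * Real.log θ⁻¹ ≤ θ * (d + 2) := by nlinarith
    have h7 := le_of_mul_le_mul_left h6 h0
    rw [Real.log_inv] at h7
    rw [← Real.exp_log h0, Real.exp_le_exp]
    linarith

end Meas

end Pool.Agent.P.MP_a7d87e_pr
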