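import Pool.Agent.P.MP_a7d87e_pr.Fix
import Pool.Agent.P.MP_a7d87e_pr.Lift

namespace Pool.Agent.P.MP_a7d87e_pr

open Finset MeasureTheory ProbabilityTheory Filter
open scoped ENNReal Topology

variable {d : ℕ}

/-- the root is eventually `+` -/
def evP (d : ℕ) : Set (V d → Bool × (ℕ → ℝ)) := {ω | ∃ N, ∀ k, N ≤ k → sol ω (root d) k = true}

lemma measurableSet_evP : MeasurableSet (evP d) := by
  unfold evP
  rw [measurableSet_setOfPred]
  refine Measurable.exists fun N => Measurable.forall fun n => Measurable.imp measurable_const ?_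
  exact measurableSet_setOfPred.1 (measurable_sol _ n (measurableSet_singleton true))

lemma sh_mem_evP {ω : V d → Bool × (ℕ → ℝ)} {x : V d} :
    sh x ω ∈ evP d ↔ ∀ᶠ k in atTop, sol ω x k = true := by
  simp only [evP, Set.mem_ofPred_eq, sol_sh, rho_root, eventually_atTop]

lemma Reg.lt_cle {ω : V d → Bool × (ℕ → ℝ)} (h : Reg ω) {x : V d} {t : ℝ} {j : ℕ} :
    j < {j | ring ω x j ≤ t}.ncard ↔ ring ω x j ≤ t :=
  (mem_iff_lt_ncard ((h.fin x (t + 1)).subset fun _ hk => lt_of_le_of_lt hk (lt_add_one t))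
    (fun _ _ hab hb => ((h.mono x).monotone hab).trans hb) j).symm

lemma theta_eq (p : unitInterval) : theta d p = (law d p).real (evP d) := by
  unfold theta
  refine measureReal_congr ?_
  filter_upwards [reg_ae p, fd_ae p] with ω hr hf
  apply propext
  change (∃ s, IsSol ω s ∧ ∀ᶠ t : ℝ in atTop, s (root d) {j | ring ω (root d) j ≤ t}.ncard = true)
    ↔ ∃ N, ∀ k, N ≤ k → sol ω (root d) k = true
  constructor
  · rintro ⟨s, hs, ht⟩
    obtain ⟨N, hN⟩ := eventually_atTop.1 ((hr.tendsto (root d)).eventually ht)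
    refine ⟨N + 1, fun k hk => ?_⟩
    obtain ⟨k, rfl⟩ : ∃ m, k = m + 1 := ⟨k - 1, by omega⟩
    have h1 : {j | ring ω (root d) j ≤ ring ω (root d) k}.ncard = k + 1 := by
      refine le_antisymm (not_lt.1 fun h => ?_) (hr.lt_cle.2 le_rfl)
      have := (hr.mono (root d)).le_iff_le.1 (hr.lt_cle.1 h)
      omega
    rw [← (hf _ _).unique hs (isSol_sol hf), ← h1]
    exact hN k (by omega)
  · rintro ⟨N, hN⟩
    refine ⟨sol ω, isSol_sol hf, eventually_atTop.2 ⟨ring ω (root d) N, fun t ht => hN _ ?_⟩⟩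
    exact (hr.lt_cle.2 ht).le

open Classical in
lemma min_degree {m : ℕ} (hd : d = 2 * m + 1) (p : unitInterval) :
    ∀ᵐ ω ∂law d p, ∀ x, sh x ω ∈ evP d →
      m + 1 ≤ (univ.filter fun i : Fin d => sh (nb i x) ω ∈ evP d).card := by
  filter_upwards [reg_ae p, fd_ae p, fix_ae ⟨m, hd⟩ p] with ω hr hf hfix x hx
  simp only [sh_mem_evP] at hx ⊢
  choose b hb using hfix
  have h1 : ∀ i, ∀ᶠ k in atTop, sol ω (nb i x) (cn ω (nb i x) (ring ω x k)) = b (nb i x) := by
    intro i
    refine Tendsto.eventually (f := fun k => cn ω (nb i x) (ring ω x k)) ?_ (hb (nb i x))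
    refine tendsto_atTop.2 fun N => ?_
    filter_upwards [(hr.tendsto x).eventually (eventually_gt_atTop (ring ω (nb i x) N))] with k hk
    exact (hr.lt_cn.2 hk).le
  obtain ⟨k, h2, h3⟩ := ((eventually_all.2 h1).and
    ((tendsto_add_atTop_nat 1).eventually hx)).exists
  rw [(isSol_iff.1 (isSol_sol hf)).2] at h3
  simp only [h2, maj, decide_eq_true_eq] at h3
  have h4 : (univ.filter fun i => b (nb i x) = true) ⊆
      univ.filter fun i : Fin d => ∀ᶠ k in atTop, sol ω (nb i x) k = true := by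
    intro i hi
    simp only [mem_filter, mem_univ, true_and] at hi ⊢
    rw [← hi]; exact hb _
  have h5 := card_le_card h4
  omega

lemma mp_spin (p : unitInterval) (x : V d) :
    MeasurePreserving (fun ω : V d → Bool × (ℕ → ℝ) => (ω x).1) (law d p)
      (bernoulliMeasure true false p) :=
  (measurePreserving_fst (μ := bernoulliMeasure true false p) (ν := kap)).comp
    (measurePreserving_eval_infinitePi (fun _ : V d => nu p) x)

lemma theta_zero : theta d 0 = 0 := by
  have h1 : ∀ᵐ ω ∂law d 0, ∀ x, (ω x).1 = false := ae_all_iff.2 fun x =>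
    (mp_spin 0 x).quasiMeasurePreserving.ae (p := fun b => b = false) (by simp)
  rw [theta_eq, measureReal_eq_zero_iff, measure_eq_zero_iff_ae_notMem]
  filter_upwards [h1, fd_ae 0] with ω h hf
  rintro ⟨N, hN⟩
  have hs : IsSol ω fun _ _ => false := ⟨fun x => (h x).symm, by simp⟩
  have := (hf (root d) N).unique hs (isSol_sol hf)
  rw [hN N le_rfl] at this
  simp at this

lemma theta_one (hd : 0 < d) : theta d 1 = 1 := by
  have h1 : ∀ᵐ ω ∂law d 1, ∀ x, (ω x).1 = true := ae_all_iff.2 fun x =>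
    (mp_spin 1 x).quasiMeasurePreserving.ae (p := fun b => b = true) (by simp)
  rw [theta_eq, ← probReal_univ (μ := law d 1)]
  refine measureReal_congr ?_
  filter_upwards [h1, fd_ae 1] with ω h hf
  have hs : IsSol ω fun _ _ => true := ⟨fun x => (h x).symm, by simp; omega⟩
  apply propext
  exact ⟨fun _ => trivial, fun _ => ⟨0, fun k _ =>
    ((hf (root d) k).unique hs (isSol_sol hf)).symm⟩⟩

lemma theta_gap (hd : Odd d) (h5 : 5 ≤ d) :
    ∃ c : ℝ, 0 < c ∧ ∀ p, theta d p = 0 ∨ c ≤ theta d p := by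
  classical
  obtain ⟨m, hm⟩ := hd
  refine ⟨_, Real.exp_pos (-(d + 2)), fun p => ?_⟩
  rw [theta_eq]
  refine gap3 (nu p) (evP d) measurableSet_evP ?_
  filter_upwards [min_degree hm p] with ω hω h
  exact le_trans (by omega) (hω (root d) (by simpa using h))

lemma not_continuousAt_of_gap (f : unitInterval → ℝ) {c : ℝ} (hc : 0 < c)
    (h : ∀ p, f p = 0 ∨ c ≤ f p) (h0 : f 0 = 0) (h1 : f 1 ≠ 0) (hn : ∀ p, 0 ≤ f p) :
    ¬ ContinuousAt f (sSup {p | f p = 0}) := by
  intro hcont
  set q := sSup {p | f p = 0} with hq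
  have hev : ∀ᶠ p in 𝓝 q, dist (f p) (f q) < c := hcont.eventually (Metric.ball_mem_nhds _ hc)
  have hcl : q ∈ closure {p | f p = 0} := sSup_mem_closure ⟨0, h0⟩
  have hq0 : f q = 0 := by
    obtain ⟨p, hp1, hp2⟩ := mem_closure_iff_nhds.1 hcl _ hev
    have hp1' : dist (f p) (f q) < c := hp1
    have hp2' : f p = 0 := hp2
    rw [hp2', Real.dist_eq, zero_sub, abs_neg, abs_of_nonneg (hn q)] at hp1'
    exact (h q).resolve_right (not_le.2 hp1')
  have hq1 : q < 1 := lt_of_le_of_ne le_top fun e => h1 (e ▸ hq0)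
  have : (𝓝[>] q).NeBot := nhdsGT_neBot_of_exists_gt ⟨1, hq1⟩
  obtain ⟨p, hp1, hp2⟩ := ((hev.filter_mono (nhdsWithin_le_nhds (s := Set.Ioi q))).and
    self_mem_nhdsWithin).exists
  rw [hq0, Real.dist_eq, sub_zero, abs_of_nonneg (hn p)] at hp1
  have hp0 : f p = 0 := (h p).resolve_right (not_le.2 hp1)
  exact absurd (le_sSup (s := {p | f p = 0}) hp0) (not_le.2 hp2)

end Pool.Agent.P.MP_a7d87e_pr
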