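import Pool.Agent.P.MP_a7d87e_pr.Tree

namespace Pool.Agent.P.MP_a7d87e_pr

open Finset MeasureTheory ProbabilityTheory
open scoped InnerProductSpace symmDiff

variable {d : ℕ}

lemma doubling (a : ℕ → ℝ) {L C : ℝ} (hL : 0 < L) (h0 : 0 ≤ a 0)
    (hcs : ∀ m, a m ^ 2 ≤ a 0 * a (2 * m)) (hb : ∀ m, a m ≤ C * L ^ m) : a 1 ≤ L * a 0 := by
  by_contra hcon
  push Not at hcon
  rcases h0.eq_or_lt with h0 | h0
  · have := hcs 1
    rw [← h0] at this hcon
    nlinarith
  set r := a 1 / a 0 with hr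
  have hrL : L < r := by rw [hr, lt_div_iff₀ h0]; exact hcon
  have hr0 : 0 < r := hL.trans hrL
  have key : ∀ j : ℕ, r ^ (2 ^ j) * a 0 ≤ a (2 ^ j) := by
    intro j
    induction j with
    | zero => simp [hr, h0.ne']
    | succ j ih =>
      have h1 := hcs (2 ^ j)
      have h2 : (r ^ (2 ^ j) * a 0) ^ 2 ≤ a (2 ^ j) ^ 2 :=
        pow_le_pow_left₀ (by positivity) ih 2
      have h3 : a 0 * (r ^ (2 ^ (j + 1)) * a 0) ≤ a 0 * a (2 * 2 ^ j) := by
        calc a 0 * (r ^ (2 ^ (j + 1)) * a 0) = (r ^ (2 ^ j) * a 0) ^ 2 := by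
              rw [pow_succ 2 j, pow_mul]; ring
          _ ≤ _ := h2.trans h1
      rw [pow_succ' 2 j]
      rw [pow_succ' 2 j] at h3
      exact le_of_mul_le_mul_left h3 h0
  have hq : 1 < r / L := by rw [lt_div_iff₀ hL]; linarith
  obtain ⟨n, hn⟩ := pow_unbounded_of_one_lt (C / a 0) hq
  have h4 : (r / L) ^ n ≤ (r / L) ^ (2 ^ n) :=
    pow_le_pow_right₀ hq.le (Nat.lt_two_pow_self).le
  have h5 := (key n).trans (hb _)
  have h6 : (r / L) ^ (2 ^ n) ≤ C / a 0 := by
    rw [div_pow, div_le_div_iff₀ (by positivity) h0]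
    exact h5
  linarith

section Hilbert

variable {H : Type*} [NormedAddCommGroup H] [InnerProductSpace ℝ H]

/-- the sum operator along the words of `W` -/
noncomputable def Sop (W : Finset (List (Fin d))) (F : V d → H) (x : V d) : H :=
  ∑ w ∈ W, F (walk w x)

/-- joint invariance of two families -/
def Inv2 (F F' : V d → H) : Prop := ∀ z x y, ⟪F (rho z x), F' (rho z y)⟫_ℝ = ⟪F x, F' y⟫_ℝ

lemma Inv2.symm {F F' : V d → H} (h : Inv2 F F') : Inv2 F' F := fun z x y => by
  rw [real_inner_comm, h, real_inner_comm]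

lemma Inv2.sop (W : Finset (List (Fin d))) {F F' : V d → H} (h : Inv2 F F') :
    Inv2 (Sop W F) F' := fun z x y => by
  simp only [Sop, sum_inner, ← rho_walk, h z]

lemma Inv2.iter (W : Finset (List (Fin d))) {F F' : V d → H} (h : Inv2 F F') (a : ℕ) :
    Inv2 ((Sop W)^[a] F) F' := by
  induction a with
  | zero => exact h
  | succ a ih => rw [Function.iterate_succ_apply']; exact ih.sop W

lemma Inv2.adj {W : Finset (List (Fin d))} (hW : ∀ w ∈ W, w.reverse ∈ W) {F F' : V d → H}
    (h : Inv2 F F') : ⟪F (root d), Sop W F' (root d)⟫_ℝ = ⟪Sop W F (root d), F' (root d)⟫_ℝ := by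
  simp only [Sop, sum_inner, inner_sum]
  refine sum_nbij' List.reverse List.reverse hW hW (by simp) (by simp) fun w _ => ?_
  have := h (act w (root d)) (root d) (walk w (root d))
  rw [rho_walk, rho_root, walk_act] at this
  rw [walk_reverse, this]

lemma spec_hilbert {W : Finset (List (Fin d))} (hW : ∀ w ∈ W, w.reverse ∈ W) (G : V d → H)
    (hG : Inv2 G G) (h : V d → ℝ) {L C : ℝ} (hL : 0 < L) (hC : 0 ≤ C)
    (hh : ∀ x, ∑ w ∈ W, h (walk w x) ≤ L * h x)
    (hb : ∀ x, ⟪G x, G (root d)⟫_ℝ ≤ C * h x) :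
    ∑ w ∈ W, ⟪G (walk w (root d)), G (root d)⟫_ℝ ≤ L * ⟪G (root d), G (root d)⟫_ℝ := by
  have h1 : ∀ m x, ⟪(Sop W)^[m] G x, G (root d)⟫_ℝ ≤ C * L ^ m * h x := by
    intro m
    induction m with
    | zero => simpa using hb
    | succ m ih =>
      intro x
      rw [Function.iterate_succ_apply', Sop, sum_inner]
      calc _ ≤ ∑ w ∈ W, C * L ^ m * h (walk w x) := sum_le_sum fun w _ => ih _
        _ = C * L ^ m * ∑ w ∈ W, h (walk w x) := by rw [mul_sum]
        _ ≤ C * L ^ m * (L * h x) := by gcongr; exact hh x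
        _ = _ := by ring
  have h2 : ∀ b a, ⟪(Sop W)^[a] G (root d), (Sop W)^[b] G (root d)⟫_ℝ =
      ⟪(Sop W)^[a + b] G (root d), G (root d)⟫_ℝ := by
    intro b
    induction b with
    | zero => intro a; rfl
    | succ b ih =>
      intro a
      rw [Function.iterate_succ_apply', ((hG.iter W b).symm.iter W a).adj hW,
        ← Function.iterate_succ_apply' (Sop W) a, ih, Nat.succ_add_eq_add_succ]
  have := doubling (fun m => ⟪(Sop W)^[m] G (root d), G (root d)⟫_ℝ) (C := C * h (root d)) hL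
    real_inner_self_nonneg (fun m => by
      have h3 := real_inner_mul_inner_self_le ((Sop W)^[m] G (root d)) (G (root d))
      rw [h2 m m, ← two_mul] at h3
      simp only [Function.iterate_zero, id]
      nlinarith) (fun m => by have := h1 m (root d); linarith)
  simpa [Sop, sum_inner] using this

end Hilbert

section Meas

variable {E : Type*} [MeasurableSpace E] (ν : Measure E) [IsProbabilityMeasure ν]

/-- shift of a configuration -/
def sh (z : V d) (ω : V d → E) : V d → E := fun x => ω (rho z x)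

omit [MeasurableSpace E] in
lemma sh_sh (z y : V d) (ω : V d → E) : sh y (sh z ω) = sh (rho z y) ω := by
  funext x; simp [sh, rho_rho]

omit [MeasurableSpace E] in
@[simp] lemma sh_root (ω : V d → E) : sh (root d) ω = ω := by
  funext x; simp [sh, rho_root_left]

lemma measurable_sh (z : V d) : Measurable (sh z : (V d → E) → V d → E) := by
  unfold sh; fun_prop

lemma mp_sh (z : V d) : MeasurePreserving (sh z) (Measure.infinitePi fun _ : V d => ν)
    (Measure.infinitePi fun _ : V d => ν) :=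
  ⟨measurable_sh z, Measure.map_infinitePi_infinitePi_of_inj (P := fun _ : V d => ν)
    (rho_injective z)⟩

lemma indep_far (J : Finset (V d)) (S : Set (J → E)) (hS : MeasurableSet S) (x : V d)
    (hx : ∀ y ∈ J, rho x y ∉ J) :
    (Measure.infinitePi fun _ : V d => ν) (sh x ⁻¹' cylinder J S ∩ cylinder J S) =
      (Measure.infinitePi fun _ : V d => ν) (sh x ⁻¹' cylinder J S) *
      (Measure.infinitePi fun _ : V d => ν) (cylinder J S) := by
  have hd : Disjoint (J.image (rho x)) J := by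
    rw [Finset.disjoint_left]
    intro a ha
    obtain ⟨y, hy, rfl⟩ := mem_image.1 ha
    exact hx y hy
  have hi := (iIndepFun_infinitePi (P := fun _ : V d => ν) (X := fun _ e => e)
    (fun _ => measurable_id)).indepFun_finset _ _ hd (fun i => measurable_pi_apply i)
  let φ : (J.image (rho x) → E) → J → E := fun η j => η ⟨rho x j, mem_image_of_mem _ j.2⟩
  have hφ : Measurable φ := by unfold φ; fun_prop
  exact hi.measure_inter_preimage_eq_mul (φ ⁻¹' S) S (hφ hS) hS

lemma spec_cyl {W : Finset (List (Fin d))} (hW : ∀ w ∈ W, w.reverse ∈ W) {a L : ℝ} (ha : 1 ≤ a)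
    (hL : 0 < L) (hh : ∀ x : V d, ∑ w ∈ W, a⁻¹ ^ dep (walk w x) ≤ L * a⁻¹ ^ dep x)
    (B : Set (V d → E)) (hB : B ∈ measurableCylinders fun _ : V d => E) :
    ∑ w ∈ W, (Measure.infinitePi fun _ : V d => ν).real (sh (walk w (root d)) ⁻¹' B ∩ B) ≤
      W.card * (Measure.infinitePi fun _ : V d => ν).real B ^ 2 +
        L * (Measure.infinitePi fun _ : V d => ν).real B := by
  set μ := Measure.infinitePi fun _ : V d => ν with hμ
  have hBm : MeasurableSet B := MeasurableSet.of_mem_measurableCylinders hB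
  obtain ⟨J, S, hS, rfl⟩ := (mem_measurableCylinders _).1 hB
  set B := cylinder (α := fun _ : V d => E) J S with hBdef
  set β := μ.real B with hβ
  have hBx : ∀ x : V d, MeasurableSet (sh x ⁻¹' B) := fun x => measurable_sh x hBm
  have hβx : ∀ x : V d, μ.real (sh x ⁻¹' B) = β := fun x =>
    (mp_sh ν x).measureReal_preimage hBm.nullMeasurableSet
  let G : V d → Lp ℝ 2 μ := fun x => indicatorConstLp 2 (hBx x) (measure_ne_top _ _) (1 : ℝ) -
    β • indicatorConstLp 2 MeasurableSet.univ (measure_ne_top _ _) (1 : ℝ)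
  have hG : ∀ x y, ⟪G x, G y⟫_ℝ = μ.real (sh x ⁻¹' B ∩ sh y ⁻¹' B) - β ^ 2 := by
    intro x y
    simp only [G, inner_sub_left, inner_sub_right, real_inner_smul_left, real_inner_smul_right,
      L2.real_inner_indicatorConstLp_one_indicatorConstLp_one, Set.inter_univ, Set.univ_inter,
      hβx, probReal_univ]
    ring
  have hinv : Inv2 G G := by
    intro z x y
    rw [hG, hG]
    congr 1
    rw [← (mp_sh ν z).measureReal_preimage ((hBx x).inter (hBx y)).nullMeasurableSet]
    congr 1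
    ext ω
    simp [sh_sh]
  obtain ⟨R, hR⟩ : ∃ R, ∀ y ∈ J, dep y ≤ R := ⟨J.sup dep, fun y hy => le_sup (f := dep) hy⟩
  have hβ0 : 0 ≤ β := measureReal_nonneg
  have hb : ∀ x, ⟪G x, G (root d)⟫_ℝ ≤ a ^ (2 * R) * a⁻¹ ^ dep x := by
    intro x
    rw [hG]
    by_cases hx : dep x ≤ 2 * R
    · have h1 : μ.real (sh x ⁻¹' B ∩ sh (root d) ⁻¹' B) ≤ 1 := measureReal_le_one
      have h2 : 1 ≤ a ^ (2 * R) * a⁻¹ ^ dep x := by
        rw [inv_pow, ← div_eq_mul_inv, le_div_iff₀ (by positivity), one_mul]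
        exact pow_le_pow_right₀ ha hx
      nlinarith
    · have h1 : sh (root d) ⁻¹' B = B := by ext ω; simp
      have h2 := indep_far ν J S hS x (fun y hy hy' => by
        have := dep_le_rho x y
        have := hR y hy
        have := hR _ hy'
        omega)
      have h3 : μ.real (sh x ⁻¹' B ∩ B) = β ^ 2 := by
        rw [measureReal_def, hμ, hBdef, h2, ENNReal.toReal_mul, ← measureReal_def,
          ← measureReal_def, ← hμ, ← hBdef, hβx, sq]
      rw [h1, h3, sub_self]
      positivity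
  have := spec_hilbert hW G hinv (fun x => a⁻¹ ^ dep x) hL (by positivity) hh hb
  have h1 : sh (root d) ⁻¹' B = B := by ext ω; simp
  simp only [hG, h1, Set.inter_self, sum_sub_distrib, sum_const, nsmul_eq_mul] at this
  have h2 : 0 ≤ L * β ^ 2 := by positivity
  nlinarith

lemma spec_set {W : Finset (List (Fin d))} (hW : ∀ w ∈ W, w.reverse ∈ W) {a L : ℝ} (ha : 1 ≤ a)
    (hL : 0 < L) (hh : ∀ x : V d, ∑ w ∈ W, a⁻¹ ^ dep (walk w x) ≤ L * a⁻¹ ^ dep x)
    (A : Set (V d → E)) (hA : MeasurableSet A) :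
    ∑ w ∈ W, (Measure.infinitePi fun _ : V d => ν).real (sh (walk w (root d)) ⁻¹' A ∩ A) ≤
      W.card * (Measure.infinitePi fun _ : V d => ν).real A ^ 2 +
        L * (Measure.infinitePi fun _ : V d => ν).real A := by
  set μ := Measure.infinitePi fun _ : V d => ν with hμ
  have hd := Measure.MeasureDense.of_generateFrom_isSetAlgebra_finite μ
    (isSetAlgebra_measurableCylinders (α := fun _ : V d => E))
    generateFrom_measurableCylinders.symm
  refine le_of_forall_pos_le_add fun ε hε => ?_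
  have hK : 0 < 4 * (W.card : ℝ) + L := by positivity
  obtain ⟨B, hB, hAB⟩ := hd.approx A hA (measure_ne_top _ _) (ε / (4 * W.card + L))
    (by positivity)
  set η := μ.real (A ∆ B) with hη
  have hη1 : η ≤ ε / (4 * W.card + L) := ENNReal.toReal_le_of_le_ofReal (by positivity) hAB.le
  have hBm : MeasurableSet B := MeasurableSet.of_mem_measurableCylinders hB
  have h1 := spec_cyl ν hW ha hL hh B hB
  rw [← hμ] at h1
  have h2 : μ.real B ≤ μ.real A + η := by
    refine le_trans (measureReal_mono (s₂ := A ∪ A ∆ B) ?_) (measureReal_union_le _ _)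
    intro ω; simp only [Set.mem_union, Set.mem_symmDiff]; tauto
  have h3 : ∀ x : V d, μ.real (sh x ⁻¹' A ∩ A) ≤ μ.real (sh x ⁻¹' B ∩ B) + 2 * η := by
    intro x
    have e : μ.real (sh x ⁻¹' (A ∆ B)) = η :=
      (mp_sh ν x).measureReal_preimage (hA.symmDiff hBm).nullMeasurableSet
    calc μ.real (sh x ⁻¹' A ∩ A)
        ≤ μ.real ((sh x ⁻¹' B ∩ B) ∪ (sh x ⁻¹' (A ∆ B) ∪ A ∆ B)) := by
          refine measureReal_mono ?_
          intro ω
          simp only [Set.mem_union, Set.mem_symmDiff, Set.mem_inter_iff, Set.mem_preimage]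
          tauto
      _ ≤ μ.real (sh x ⁻¹' B ∩ B) + (μ.real (sh x ⁻¹' (A ∆ B)) + μ.real (A ∆ B)) :=
          (measureReal_union_le _ _).trans (by gcongr; exact measureReal_union_le _ _)
      _ = _ := by rw [e]; ring
  have h4 : ∑ w ∈ W, μ.real (sh (walk w (root d)) ⁻¹' A ∩ A) ≤
      ∑ w ∈ W, μ.real (sh (walk w (root d)) ⁻¹' B ∩ B) + W.card * (2 * η) := by
    rw [← nsmul_eq_mul, ← sum_const, ← sum_add_distrib]
    exact sum_le_sum fun w _ => h3 _
  have hA0 : 0 ≤ μ.real A := measureReal_nonneg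
  have hA1 : μ.real A ≤ 1 := measureReal_le_one
  have hB0 : 0 ≤ μ.real B := measureReal_nonneg
  have hB1 : μ.real B ≤ 1 := measureReal_le_one
  have hη0 : 0 ≤ η := measureReal_nonneg
  have h5 : μ.real B ^ 2 ≤ μ.real A ^ 2 + 2 * η := by nlinarith
  have h6 : (4 * W.card + L) * η ≤ ε := by rwa [le_div_iff₀' hK] at hη1
  have hW0 : (0 : ℝ) ≤ W.card := by positivity
  have h7 := mul_le_mul_of_nonneg_left h5 hW0
  have h8 := mul_le_mul_of_nonneg_left h2 hL.le
  nlinarith

/-- The density gap: an invariant random set in which each vertex has at least `m + 1`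
neighbours in the set, with `m ^ 2 > d - 1`, has density zero or at least `c`. -/
theorem gap (d m : ℕ) (hd : 2 ≤ d) (hm : d - 1 < m ^ 2) : ∃ c : ℝ, 0 < c ∧
    ∀ (E : Type) [MeasurableSpace E] (ν : Measure E) [IsProbabilityMeasure ν]
      (A : Set (V d → E)) [DecidablePred (· ∈ A)], MeasurableSet A →
      (∀ᵐ ω ∂(Measure.infinitePi fun _ : V d => ν), ∀ x, sh x ω ∈ A →
        m + 1 ≤ (univ.filter fun i : Fin d => sh (nb i x) ω ∈ A).card) →
      (Measure.infinitePi fun _ : V d => ν).real A = 0 ∨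
        c ≤ (Measure.infinitePi fun _ : V d => ν).real A := by
  have hd1 : (1 : ℝ) ≤ (d : ℝ) - 1 := by
    have : (2 : ℝ) ≤ d := by exact_mod_cast hd
    linarith
  set a := √((d : ℝ) - 1) with ha
  have ha2 : a ^ 2 = d - 1 := Real.sq_sqrt (by linarith)
  have ha1 : 1 ≤ a := Real.one_le_sqrt.2 hd1
  have hm' : (d : ℝ) - 1 < (m : ℝ) ^ 2 := by
    have : ((d - 1 : ℕ) : ℝ) < ((m ^ 2 : ℕ) : ℝ) := by exact_mod_cast hm
    rw [Nat.cast_sub (by omega)] at this
    simpa using this
  have ham : a < m := by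
    rw [ha, Real.sqrt_lt' (by nlinarith [Nat.cast_nonneg (α := ℝ) m])]; exact hm'
  have hm0 : (0 : ℝ) < m := by linarith
  obtain ⟨n, hn⟩ : ∃ n : ℕ, d * (n + 1) * a ^ (n + 1) < (m : ℝ) ^ n := by
    have hr0 : 0 ≤ a / m := by positivity
    have hr1 : a / m < 1 := (div_lt_one hm0).2 ham
    have t := (tendsto_self_mul_const_pow_of_lt_one hr0 hr1).comp
      (Filter.tendsto_add_atTop_nat 1)
    have hdm : (0 : ℝ) < 1 / (d * m) := by positivity
    obtain ⟨n, hn⟩ := (t.eventually (gt_mem_nhds hdm)).exists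
    refine ⟨n, ?_⟩
    simp only [Function.comp, Nat.cast_add, Nat.cast_one, div_pow] at hn
    rw [← mul_div_assoc, div_lt_div_iff₀ (by positivity) (by positivity), pow_succ (m : ℝ)] at hn
    nlinarith
  set L := d * (n + 1) * a ^ (n + 1) with hL
  have hL0 : 0 < L := by positivity
  set W := redW d (n + 1) with hW
  refine ⟨(m ^ n - L) / (W.card + 1), by have := sub_pos.2 hn; positivity, ?_⟩
  intro E _ ν _ A _ hA hmin
  have h1 := spec_set ν (W := W) (fun w hw => reverse_mem_redW hw) ha1 hL0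
    (sum_redW_test ha1 ha2.ge n) A hA
  set μ := Measure.infinitePi fun _ : V d => ν with hμ
  have hAx : ∀ w : List (Fin d), MeasurableSet (sh (walk w (root d)) ⁻¹' A ∩ A) := fun w =>
    (measurable_sh _ hA).inter hA
  have h2 : (m : ℝ) ^ n * μ.real A ≤ ∑ w ∈ W, μ.real (sh (walk w (root d)) ⁻¹' A ∩ A) := by
    have e1 : ∀ w ∈ W, μ.real (sh (walk w (root d)) ⁻¹' A ∩ A) =
        ∫ ω, (sh (walk w (root d)) ⁻¹' A ∩ A).indicator (fun _ => (1 : ℝ)) ω ∂μ := by
      intro w _
      rw [integral_indicator (hAx w)]; simp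
    have e2 : (m : ℝ) ^ n * μ.real A = ∫ ω, A.indicator (fun _ => (m : ℝ) ^ n) ω ∂μ := by
      rw [integral_indicator hA]; simp [mul_comm]
    have i1 : ∀ w ∈ W, Integrable
        ((sh (walk w (root d)) ⁻¹' A ∩ A).indicator (fun _ => (1 : ℝ))) μ :=
      fun w _ => (integrable_const _).indicator (hAx w)
    rw [sum_congr rfl e1, e2, ← integral_finsetSum _ i1]
    refine integral_mono_ae ((integrable_const _).indicator hA) (integrable_finsetSum _ i1) ?_
    filter_upwards [hmin] with ω hω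
    by_cases hωA : ω ∈ A
    · have := sum_redW_lower {x | sh x ω ∈ A} m hω n (root d) (by simpa using hωA)
      simpa [Set.indicator, hωA] using this
    · simp [Set.indicator, hωA]
  rcases (measureReal_nonneg (μ := μ) (s := A)).eq_or_lt with h0 | h0
  · exact Or.inl h0.symm
  · right
    rw [div_le_iff₀ (by positivity)]
    have h3 : μ.real A * ((m : ℝ) ^ n - L) ≤ μ.real A * (W.card * μ.real A) := by nlinarith
    have h4 := le_of_mul_le_mul_left h3 h0
    nlinarith

end Meas

end Pool.Agent.P.MP_a7d87e_pr
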