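import Pool.Agent.P.MP_a7d87e_pr.Defs

namespace Pool.Agent.P.MP_a7d87e_pr

open Finset

variable {d : ℕ}

instance : DecidableEq (V d) := inferInstanceAs (DecidableEq {l : List (Fin d) // l.IsChain (· ≠ ·)})

instance : Countable (V d) := inferInstanceAs (Countable {l : List (Fin d) // l.IsChain (· ≠ ·)})

/-- depth of a vertex -/
def dep (x : V d) : ℕ := x.1.length

lemma nb_val_of_head {i : Fin d} {x : V d} (h : x.1.head? = some i) : (nb i x).1 = x.1.tail := by
  simp [nb, h]

lemma nb_val_of_not {i : Fin d} {x : V d} (h : ¬ x.1.head? = some i) :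
    (nb i x).1 = i :: x.1 := by
  simp [nb, h]

@[simp] lemma nb_nb (i : Fin d) (x : V d) : nb i (nb i x) = x := by
  apply Subtype.ext
  by_cases h : x.1.head? = some i
  · have h1 := nb_val_of_head h
    obtain ⟨l, hl⟩ := x
    cases l with
    | nil => simp at h
    | cons a t =>
      simp only [List.head?_cons, Option.some.injEq] at h
      subst h
      have h2 : ¬ (nb a ⟨a :: t, hl⟩ : V d).1.head? = some a := by
        rw [h1]
        intro h3
        exact (List.isChain_cons.1 hl).1 a h3 rfl
      rw [nb_val_of_not h2, h1]; rfl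
  · have h1 := nb_val_of_not h
    have h2 : (nb i x).1.head? = some i := by rw [h1]; rfl
    rw [nb_val_of_head h2, h1]; rfl

lemma dep_nb_of_head {i : Fin d} {x : V d} (h : x.1.head? = some i) :
    dep (nb i x) + 1 = dep x := by
  unfold dep
  rw [nb_val_of_head h]
  obtain ⟨l, hl⟩ := x
  cases l with
  | nil => simp at h
  | cons a t => simp

lemma dep_nb_of_not {i : Fin d} {x : V d} (h : ¬ x.1.head? = some i) :
    dep (nb i x) = dep x + 1 := by
  unfold dep
  rw [nb_val_of_not h]; simp

lemma dep_le_nb (i : Fin d) (x : V d) : dep x ≤ dep (nb i x) + 1 := by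
  by_cases h : x.1.head? = some i
  · have := dep_nb_of_head h; omega
  · have := dep_nb_of_not h; omega

lemma nb_ne (i : Fin d) (x : V d) : nb i x ≠ x := by
  intro e
  have := congrArg dep e
  by_cases h : x.1.head? = some i
  · have := dep_nb_of_head h; omega
  · have := dep_nb_of_not h; omega

/-- apply the letters of `w` from last to first -/
def act (w : List (Fin d)) (z : V d) : V d := w.foldr nb z

/-- apply the letters of `w` from first to last -/
def walk (w : List (Fin d)) (z : V d) : V d := w.foldl (fun x i => nb i x) z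

@[simp] lemma act_nil (z : V d) : act [] z = z := rfl
@[simp] lemma act_cons (i : Fin d) (w : List (Fin d)) (z : V d) :
    act (i :: w) z = nb i (act w z) := rfl
@[simp] lemma walk_nil (z : V d) : walk [] z = z := rfl
@[simp] lemma walk_cons (i : Fin d) (w : List (Fin d)) (z : V d) :
    walk (i :: w) z = walk w (nb i z) := rfl

lemma act_walk (w : List (Fin d)) (z : V d) : act w (walk w z) = z := by
  induction w generalizing z with
  | nil => rfl
  | cons i w ih => simp [ih]

lemma walk_act (w : List (Fin d)) (z : V d) : walk w (act w z) = z := by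
  induction w generalizing z with
  | nil => rfl
  | cons i w ih => simp [ih]

lemma walk_reverse (w : List (Fin d)) (z : V d) : walk w.reverse z = act w z := by
  unfold walk act
  rw [List.foldl_reverse]

lemma dep_le_act (w : List (Fin d)) (z : V d) : dep z ≤ dep (act w z) + w.length := by
  induction w with
  | nil => simp
  | cons i w ih =>
    have := dep_le_nb i (act w z)
    simp only [act_cons, List.length_cons]; omega

/-- the automorphism sending the root to `z` -/
def rho (z x : V d) : V d := act x.1 z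

@[simp] lemma rho_root (z : V d) : rho z (root d) = z := rfl

lemma rho_nb (z : V d) (i : Fin d) (x : V d) : rho z (nb i x) = nb i (rho z x) := by
  unfold rho
  by_cases h : x.1.head? = some i
  · rw [nb_val_of_head h]
    obtain ⟨l, hl⟩ := x
    cases l with
    | nil => simp at h
    | cons a t =>
      simp only [List.head?_cons, Option.some.injEq] at h
      subst h
      simp
  · rw [nb_val_of_not h]; rfl

lemma rho_walk (z : V d) (w : List (Fin d)) (x : V d) :
    rho z (walk w x) = walk w (rho z x) := by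
  induction w generalizing x with
  | nil => rfl
  | cons i w ih => simp [ih, rho_nb]

lemma rho_act (z : V d) (w : List (Fin d)) (x : V d) :
    rho z (act w x) = act w (rho z x) := by
  induction w generalizing x with
  | nil => rfl
  | cons i w ih => simp [ih, rho_nb]

lemma act_root (x : V d) : act x.1 (root d) = x := by
  obtain ⟨l, hl⟩ := x
  induction l with
  | nil => rfl
  | cons a t ih =>
    have h := List.isChain_cons.1 hl
    simp only [act_cons]
    have e := ih h.2
    simp only at e
    rw [e]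
    apply Subtype.ext
    rw [nb_val_of_not]
    intro h3
    exact h.1 a h3 rfl

lemma rho_rho (z y x : V d) : rho z (rho y x) = rho (rho z y) x := by
  unfold rho
  exact rho_act z x.1 y

lemma rho_root_left (x : V d) : rho (root d) x = x := act_root x

lemma rho_injective (z : V d) : Function.Injective (rho z) := by
  intro x y h
  have e : rho (walk z.1 (root d)) z = root d := act_walk _ _
  have := congrArg (rho (walk z.1 (root d))) h
  rwa [rho_rho, rho_rho, e, rho_root_left, rho_root_left] at this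

lemma dep_le_rho (z x : V d) : dep z ≤ dep (rho z x) + dep x := dep_le_act x.1 z

/-- all words of length `n` -/
def allW (d : ℕ) : ℕ → Finset (List (Fin d))
  | 0 => {[]}
  | n + 1 => ((univ : Finset (Fin d)) ×ˢ allW d n).map
      ⟨fun p => p.1 :: p.2, fun p q h => by
        simp only [List.cons.injEq] at h
        exact Prod.ext h.1 h.2⟩

lemma mem_allW {n : ℕ} {w : List (Fin d)} : w ∈ allW d n ↔ w.length = n := by
  induction n generalizing w with
  | zero => simp [allW]
  | succ n ih =>
    cases w with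
    | nil => simp [allW]
    | cons a t => simp [allW, ih]

lemma sum_allW_succ {M : Type*} [AddCommMonoid M] (n : ℕ) (f : List (Fin d) → M) :
    ∑ w ∈ allW d (n + 1), f w = ∑ i : Fin d, ∑ w ∈ allW d n, f (i :: w) := by
  rw [allW, sum_map, sum_product]; rfl

lemma card_allW (n : ℕ) : (allW d n).card = d ^ n := by
  induction n with
  | zero => simp [allW]
  | succ n ih => rw [allW, card_map, card_product, ih]; simp [pow_succ, mul_comm]

/-- reduced words of length `n` -/
def redW (d n : ℕ) : Finset (List (Fin d)) := (allW d n).filter fun w => w.IsChain (· ≠ ·)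

lemma reverse_mem_redW {n : ℕ} {w : List (Fin d)} (h : w ∈ redW d n) :
    w.reverse ∈ redW d n := by
  simp only [redW, mem_filter, mem_allW, List.length_reverse] at h ⊢
  refine ⟨h.1, ?_⟩
  rw [List.isChain_reverse]
  exact h.2.imp fun _ _ h => h.symm

/-- sum of `F` over non-backtracking walks of length `n` from `x` not starting with `j` -/
noncomputable def Dn (n : ℕ) (j : Fin d) (F : V d → ℝ) (x : V d) : ℝ :=
  ∑ w ∈ allW d n, if (j :: w).IsChain (· ≠ ·) then F (walk w x) else 0

lemma Dn_zero (j : Fin d) (F : V d → ℝ) (x : V d) : Dn 0 j F x = F x := by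
  simp [Dn, allW]

lemma Dn_succ (n : ℕ) (j : Fin d) (F : V d → ℝ) (x : V d) :
    Dn (n + 1) j F x = ∑ i : Fin d, if j ≠ i then Dn n i F (nb i x) else 0 := by
  unfold Dn
  rw [sum_allW_succ]
  refine sum_congr rfl fun i _ => ?_
  by_cases h : j = i
  · simp [h]
  · simp [h]

lemma sum_redW_succ (n : ℕ) (F : V d → ℝ) (x : V d) :
    ∑ w ∈ redW d (n + 1), F (walk w x) = ∑ i : Fin d, Dn n i F (nb i x) := by
  unfold redW Dn
  rw [sum_filter, sum_allW_succ]
  rfl

lemma Dn_nonneg (n : ℕ) (j : Fin d) (F : V d → ℝ) (hF : ∀ x, 0 ≤ F x) (x : V d) :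
    0 ≤ Dn n j F x :=
  sum_nonneg fun w _ => by split_ifs <;> simp [hF]

/-- Upper bound for the test function `a⁻¹ ^ dep`. -/
lemma Dn_test {a : ℝ} (ha : 0 < a) (had : (d : ℝ) - 1 ≤ a ^ 2) (n : ℕ) :
    ∀ (j : Fin d) (x : V d),
      (x.1.head? = some j → Dn n j (fun y => a⁻¹ ^ dep y) x ≤ a ^ n * a⁻¹ ^ dep x) ∧
      Dn n j (fun y => a⁻¹ ^ dep y) x ≤ (n + 1) * a ^ n * a⁻¹ ^ dep x := by
  induction n with
  | zero => intro j x; simp [Dn_zero]
  | succ n ih =>
    intro j x
    have hpos : 0 < a ^ n * a⁻¹ ^ dep x := by positivity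
    have hcard : ((univ.filter fun i : Fin d => j ≠ i).card : ℝ) = d - 1 := by
      have : (univ.filter fun i : Fin d => j ≠ i) = univ.erase j := by
        ext i; simp [eq_comm]
      rw [this, card_erase_of_mem (mem_univ _)]
      have : 1 ≤ d := j.pos
      simp [Nat.cast_sub this]
    have hchild : ∀ i, ¬ x.1.head? = some i →
        Dn n i (fun y => a⁻¹ ^ dep y) (nb i x) ≤ a⁻¹ * (a ^ n * a⁻¹ ^ dep x) := by
      intro i hi
      have h1 : (nb i x).1.head? = some i := by rw [nb_val_of_not hi]; rfl
      have h2 := (ih i (nb i x)).1 h1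
      rw [dep_nb_of_not hi, pow_succ] at h2
      linarith
    have hkey : ((d : ℝ) - 1) * (a⁻¹ * (a ^ n * a⁻¹ ^ dep x)) ≤ a ^ (n + 1) * a⁻¹ ^ dep x := by
      calc ((d : ℝ) - 1) * (a⁻¹ * (a ^ n * a⁻¹ ^ dep x))
          ≤ a ^ 2 * (a⁻¹ * (a ^ n * a⁻¹ ^ dep x)) := by gcongr
        _ = a ^ (n + 1) * a⁻¹ ^ dep x := by field_simp; ring
    have hB : ∀ i, Dn n i (fun y => a⁻¹ ^ dep y) (nb i x) ≤ a⁻¹ * (a ^ n * a⁻¹ ^ dep x) +
        if x.1.head? = some i then (n + 1) * a ^ (n + 1) * a⁻¹ ^ dep x else 0 := by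
      intro i
      split_ifs with hi
      · have h2 := (ih i (nb i x)).2
        have h3 : a⁻¹ ^ dep (nb i x) = a * a⁻¹ ^ dep x := by
          rw [← dep_nb_of_head hi, pow_succ]; field_simp
        rw [h3] at h2
        have : 0 ≤ a⁻¹ * (a ^ n * a⁻¹ ^ dep x) := by positivity
        calc _ ≤ (n + 1) * a ^ n * (a * a⁻¹ ^ dep x) := h2
          _ = (n + 1) * a ^ (n + 1) * a⁻¹ ^ dep x := by ring
          _ ≤ _ := by linarith
      · simpa using hchild i hi
    constructor
    · intro hj
      rw [Dn_succ, ← sum_filter]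
      calc _ ≤ ∑ i ∈ univ.filter fun i : Fin d => j ≠ i, a⁻¹ * (a ^ n * a⁻¹ ^ dep x) := by
            refine sum_le_sum fun i hi => hchild i ?_
            rw [hj]; simpa using (mem_filter.1 hi).2
        _ = ((d : ℝ) - 1) * (a⁻¹ * (a ^ n * a⁻¹ ^ dep x)) := by
            rw [sum_const, nsmul_eq_mul, hcard]
        _ ≤ _ := hkey
    · rw [Dn_succ, ← sum_filter]
      have hS : ∑ i ∈ univ.filter (fun i : Fin d => j ≠ i),
          (if x.1.head? = some i then ((n : ℝ) + 1) * a ^ (n + 1) * a⁻¹ ^ dep x else 0) ≤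
          (n + 1) * a ^ (n + 1) * a⁻¹ ^ dep x := by
        have hp : 0 ≤ ((n : ℝ) + 1) * a ^ (n + 1) * a⁻¹ ^ dep x := by positivity
        rw [← sum_filter, sum_const, nsmul_eq_mul]
        have : ((univ.filter (fun i : Fin d => j ≠ i)).filter
            fun i => x.1.head? = some i).card ≤ 1 := by
          rw [card_le_one]
          intro a ha b hb
          have h1 := (mem_filter.1 ha).2
          have h2 := (mem_filter.1 hb).2
          rw [h1] at h2
          exact Option.some.inj h2
        have h' : (((univ.filter (fun i : Fin d => j ≠ i)).filter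
            fun i => x.1.head? = some i).card : ℝ) ≤ 1 := by exact_mod_cast this
        nlinarith
      calc _ ≤ ∑ i ∈ univ.filter fun i : Fin d => j ≠ i, (a⁻¹ * (a ^ n * a⁻¹ ^ dep x) +
            if x.1.head? = some i then (n + 1) * a ^ (n + 1) * a⁻¹ ^ dep x else 0) :=
            sum_le_sum fun i _ => hB i
        _ ≤ ((d : ℝ) - 1) * (a⁻¹ * (a ^ n * a⁻¹ ^ dep x)) +
            (n + 1) * a ^ (n + 1) * a⁻¹ ^ dep x := by
            rw [sum_add_distrib, sum_const, nsmul_eq_mul, hcard]
            linarith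
        _ ≤ _ := by push_cast; linarith

lemma sum_redW_test {a : ℝ} (ha : 1 ≤ a) (had : (d : ℝ) - 1 ≤ a ^ 2) (n : ℕ) (x : V d) :
    ∑ w ∈ redW d (n + 1), a⁻¹ ^ dep (walk w x) ≤ (d * (n + 1) * a ^ (n + 1)) * a⁻¹ ^ dep x := by
  have ha0 : 0 < a := by linarith
  rw [sum_redW_succ n (fun y => a⁻¹ ^ dep y) x]
  calc _ ≤ ∑ _i : Fin d, ((n : ℝ) + 1) * a ^ (n + 1) * a⁻¹ ^ dep x := by
        refine sum_le_sum fun i _ => ((Dn_test ha0 had n i (nb i x)).2).trans ?_
        have h1 : a⁻¹ ^ dep (nb i x) ≤ a * a⁻¹ ^ dep x := by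
          have h2 : a⁻¹ ^ (dep (nb i x) + 1) ≤ a⁻¹ ^ dep x :=
            pow_le_pow_of_le_one (by positivity) (inv_le_one_of_one_le₀ ha) (dep_le_nb i x)
          calc a⁻¹ ^ dep (nb i x) = a * a⁻¹ ^ (dep (nb i x) + 1) := by
                rw [pow_succ]; field_simp
            _ ≤ _ := by gcongr
        calc ((n : ℝ) + 1) * a ^ n * a⁻¹ ^ dep (nb i x)
            ≤ ((n : ℝ) + 1) * a ^ n * (a * a⁻¹ ^ dep x) := by gcongr
          _ = _ := by ring
    _ = _ := by simp; ring

/-- Lower bound for sets in which every vertex has at least `m + 1` neighbours. -/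
lemma Dn_lower (A : Set (V d)) [DecidablePred (· ∈ A)] (m : ℕ)
    (hA : ∀ x ∈ A, m + 1 ≤ (univ.filter fun i : Fin d => nb i x ∈ A).card) (n : ℕ) :
    ∀ (j : Fin d), ∀ x ∈ A, (m : ℝ) ^ n ≤ Dn n j (fun y => if y ∈ A then 1 else 0) x := by
  induction n with
  | zero => intro j x hx; simp [Dn_zero, hx]
  | succ n ih =>
    intro j x hx
    rw [Dn_succ, ← sum_filter]
    have hsub : (univ.filter fun i : Fin d => nb i x ∈ A).erase j ⊆
        univ.filter fun i : Fin d => j ≠ i := by
      intro i hi
      simp only [mem_erase, mem_filter, mem_univ, true_and] at hi ⊢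
      exact hi.1.symm
    have hc : m ≤ ((univ.filter fun i : Fin d => nb i x ∈ A).erase j).card := by
      have := hA x hx
      have := pred_card_le_card_erase (s := univ.filter fun i : Fin d => nb i x ∈ A) (a := j)
      omega
    calc (m : ℝ) ^ (n + 1) = m * m ^ n := by ring
      _ ≤ ((univ.filter fun i : Fin d => nb i x ∈ A).erase j).card * (m : ℝ) ^ n := by
          gcongr
      _ = ∑ _i ∈ (univ.filter fun i : Fin d => nb i x ∈ A).erase j, (m : ℝ) ^ n := by
          rw [sum_const, nsmul_eq_mul]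
      _ ≤ ∑ i ∈ (univ.filter fun i : Fin d => nb i x ∈ A).erase j,
            Dn n i (fun y => if y ∈ A then 1 else 0) (nb i x) :=
          sum_le_sum fun i hi => ih i _ (mem_filter.1 (mem_erase.1 hi).2).2
      _ ≤ _ := sum_le_sum_of_subset_of_nonneg hsub fun i _ _ =>
          Dn_nonneg _ _ _ (fun y => by split_ifs <;> simp) _

lemma sum_redW_lower (A : Set (V d)) [DecidablePred (· ∈ A)] (m : ℕ)
    (hA : ∀ x ∈ A, m + 1 ≤ (univ.filter fun i : Fin d => nb i x ∈ A).card) (n : ℕ)
    (x : V d) (hx : x ∈ A) :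
    (m : ℝ) ^ n ≤ ∑ w ∈ redW d (n + 1), (if walk w x ∈ A then (1 : ℝ) else 0) := by
  rw [sum_redW_succ n (fun y => if y ∈ A then 1 else 0) x]
  obtain ⟨i, hi⟩ : (univ.filter fun i : Fin d => nb i x ∈ A).Nonempty := by
    rw [← card_pos]; have := hA x hx; omega
  exact (Dn_lower A m hA n i _ (mem_filter.1 hi).2).trans
    (single_le_sum (f := fun i => Dn n i (fun y => if y ∈ A then 1 else 0) (nb i x))
      (fun i _ => Dn_nonneg _ _ _ (fun y => by split_ifs <;> simp) _) (mem_univ i))

end Pool.Agent.P.MP_a7d87e_pr
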