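import Pool.Agent.P.MP_a7d87e_pr.Clock

namespace Pool.Agent.P.MP_a7d87e_pr

open Finset MeasureTheory ProbabilityTheory Filter
open scoped ENNReal Topology

variable {d : ℕ}

/-- number of rings of `y` before time `t` -/
noncomputable def cn (ω : V d → Bool × (ℕ → ℝ)) (y : V d) (t : ℝ) : ℕ :=
  {j | ring ω y j < t}.ncard

/-- majority -/
def maj (b : Fin d → Bool) : Bool := decide (d < 2 * (univ.filter fun i => b i = true).card)

/-- finite depth approximations of the dynamics -/
noncomputable def app : ℕ → (V d → Bool × (ℕ → ℝ)) → V d → ℕ → Bool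
  | 0, ω, x, _ => (ω x).1
  | _ + 1, ω, x, 0 => (ω x).1
  | n + 1, ω, x, k + 1 => maj fun i => app n ω (nb i x) (cn ω (nb i x) (ring ω x k))

open Classical in
/-- the measurable solution -/
noncomputable def sol (ω : V d → Bool × (ℕ → ℝ)) (x : V d) (k : ℕ) : Bool :=
  decide (∃ N, ∀ n, N ≤ n → app n ω x k = true)

/-- the spin after `k` rings at `x` has a finite dependency tree -/
inductive Fd (ω : V d → Bool × (ℕ → ℝ)) : V d → ℕ → Prop
  | zero (x : V d) : Fd ω x 0
  | succ (x : V d) (k : ℕ) : (∀ i, Fd ω (nb i x) (cn ω (nb i x) (ring ω x k))) → Fd ω x (k + 1)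

lemma isSol_iff {ω : V d → Bool × (ℕ → ℝ)} {s : V d → ℕ → Bool} : IsSol ω s ↔
    (∀ x, s x 0 = (ω x).1) ∧
      ∀ x k, s x (k + 1) = maj fun i => s (nb i x) (cn ω (nb i x) (ring ω x k)) := by
  unfold IsSol maj cn
  refine and_congr_right fun _ => forall_congr' fun x => forall_congr' fun k => ?_
  exact ⟨fun h => Bool.eq_iff_iff.2 (h.trans decide_eq_true_iff.symm),
    fun h => (Bool.eq_iff_iff.1 h).trans decide_eq_true_iff⟩

lemma Fd.unique {ω : V d → Bool × (ℕ → ℝ)} {s s' : V d → ℕ → Bool} (hs : IsSol ω s)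
    (hs' : IsSol ω s') {x : V d} {k : ℕ} (h : Fd ω x k) : s x k = s' x k := by
  rw [isSol_iff] at hs hs'
  induction h with
  | zero x => rw [hs.1, hs'.1]
  | succ x k _ ih => rw [hs.2, hs'.2]; congr 1; funext i; exact ih i

lemma sol_eq_of_ev {ω : V d → Bool × (ℕ → ℝ)} {x : V d} {k : ℕ} {b : Bool}
    (h : ∀ᶠ n in atTop, app n ω x k = b) : sol ω x k = b := by
  unfold sol
  rw [← eventually_atTop (p := fun n => app n ω x k = true)]
  cases b with
  | true => simpa using h
  | false =>
    rw [decide_eq_false_iff_not]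
    intro h'
    obtain ⟨n, h1, h2⟩ := (h.and h').exists
    simp [h1] at h2

lemma Fd.ev {ω : V d → Bool × (ℕ → ℝ)} {x : V d} {k : ℕ} (h : Fd ω x k) :
    ∀ᶠ n in atTop, app n ω x k = sol ω x k := by
  induction h with
  | zero x =>
    have : ∀ᶠ n in atTop, app n ω x 0 = (ω x).1 :=
      Eventually.of_forall fun n => by cases n <;> rfl
    rwa [sol_eq_of_ev this]
  | succ x k _ ih =>
    have h1 := eventually_all.2 ih
    have : ∀ᶠ n in atTop, app n ω x (k + 1) =
        maj fun i => sol ω (nb i x) (cn ω (nb i x) (ring ω x k)) := by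
      obtain ⟨N, hN⟩ := eventually_atTop.1 h1
      refine eventually_atTop.2 ⟨N + 1, fun n hn => ?_⟩
      obtain ⟨n, rfl⟩ : ∃ m, n = m + 1 := ⟨n - 1, by omega⟩
      rw [app]; congr 1; funext i; exact hN n (by omega) i
    rwa [sol_eq_of_ev this]

lemma isSol_sol {ω : V d → Bool × (ℕ → ℝ)} (h : ∀ x k, Fd ω x k) : IsSol ω (sol ω) := by
  rw [isSol_iff]
  refine ⟨fun x => sol_eq_of_ev (Eventually.of_forall fun n => by cases n <;> rfl), fun x k => ?_⟩
  apply sol_eq_of_ev
  have h1 := eventually_all.2 fun i => (h (nb i x) (cn ω (nb i x) (ring ω x k))).ev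
  obtain ⟨N, hN⟩ := eventually_atTop.1 h1
  refine eventually_atTop.2 ⟨N + 1, fun n hn => ?_⟩
  obtain ⟨n, rfl⟩ : ∃ m, n = m + 1 := ⟨n - 1, by omega⟩
  rw [app]; congr 1; funext i; exact hN n (by omega) i

lemma app_sh (z : V d) (ω : V d → Bool × (ℕ → ℝ)) (n : ℕ) :
    ∀ x k, app n (sh z ω) x k = app n ω (rho z x) k := by
  induction n with
  | zero => intro x k; rfl
  | succ n ih =>
    intro x k
    cases k with
    | zero => rfl
    | succ k =>
      rw [app, app]; congr 1; funext i
      rw [ih, rho_nb]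
      congr 1
      rw [← rho_nb]; rfl

lemma sol_sh (z : V d) (ω : V d → Bool × (ℕ → ℝ)) (x : V d) (k : ℕ) :
    sol (sh z ω) x k = sol ω (rho z x) k := by
  unfold sol
  exact decide_eq_decide.2 (by simp only [app_sh])

lemma measurable_ring (x : V d) (k : ℕ) : Measurable fun ω : V d → Bool × (ℕ → ℝ) => ring ω x k := by
  unfold ring; fun_prop

lemma measurable_cn (y : V d) {t : (V d → Bool × (ℕ → ℝ)) → ℝ} (ht : Measurable t) :
    Measurable fun ω => cn ω y (t ω) :=
  measurable_ncard.comp (measurable_set_iff.2 fun j =>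
    measurableSet_setOfPred.1 (measurableSet_lt (measurable_ring y j) ht))

lemma measurable_idx {α β : Type*} [MeasurableSpace α] [MeasurableSpace β] {f : α → ℕ → β}
    (hf : ∀ k, Measurable fun a => f a k) {c : α → ℕ} (hc : Measurable c) :
    Measurable fun a => f a (c a) :=
  (measurable_from_prod_countable_left (f := fun q : α × ℕ => f q.1 q.2) hf).comp
    (measurable_id.prodMk hc)

lemma measurable_app (n : ℕ) : ∀ (x : V d) (k : ℕ), Measurable fun ω => app n ω x k := by
  induction n with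
  | zero => intro x k; simp only [app]; fun_prop
  | succ n ih =>
    intro x k
    cases k with
    | zero => simp only [app]; fun_prop
    | succ k =>
      simp only [app]
      exact (measurable_of_countable maj).comp (measurable_pi_lambda _ fun i =>
        measurable_idx (ih (nb i x)) (measurable_cn _ (measurable_ring x k)))

lemma measurable_sol (x : V d) (k : ℕ) : Measurable fun ω => sol ω x k := by
  refine measurable_to_bool ?_
  have : (fun ω : V d → Bool × (ℕ → ℝ) => sol ω x k) ⁻¹' {true} =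
      {ω | ∃ N, ∀ n, N ≤ n → app n ω x k = true} := by
    ext ω; simp [sol]
  rw [this, measurableSet_setOfPred]
  refine Measurable.exists fun N => Measurable.forall fun n => Measurable.imp measurable_const ?_
  exact measurableSet_setOfPred.1 (measurable_app n x k (measurableSet_singleton true))

lemma mem_iff_lt_ncard {S : Set ℕ} (hS : S.Finite) (hl : IsLowerSet S) (j : ℕ) :
    j ∈ S ↔ j < S.ncard := by
  constructor
  · intro hj
    have : (range (j + 1) : Set ℕ) ⊆ S := fun i hi =>
      hl (by simpa [Nat.lt_succ_iff] using hi) hj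
    have h := Set.ncard_le_ncard this hS
    rw [Set.ncard_coe_finset, card_range] at h
    omega
  · intro hj
    by_contra h
    have : S ⊆ (range j : Set ℕ) := fun i hi => by
      simp only [coe_range, Set.mem_Iio]
      by_contra h'
      exact h (hl (not_lt.1 h') hi)
    have h2 := Set.ncard_le_ncard this (finite_toSet _)
    rw [Set.ncard_coe_finset, card_range] at h2
    omega

/-- regularity of the clocks -/
structure Reg (ω : V d → Bool × (ℕ → ℝ)) : Prop where
  pos : ∀ x j, 0 < (ω x).2 j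
  fin : ∀ x t, {k | ring ω x k < t}.Finite

lemma Reg.mono {ω : V d → Bool × (ℕ → ℝ)} (h : Reg ω) (x : V d) : StrictMono (ring ω x) :=
  strictMono_nat_of_lt_succ fun k => by
    unfold ring; rw [sum_range_succ _ (k + 1)]; linarith [h.pos x (k + 1)]

lemma Reg.ring_pos {ω : V d → Bool × (ℕ → ℝ)} (h : Reg ω) (x : V d) (k : ℕ) : 0 < ring ω x k :=
  sum_pos (fun j _ => h.pos x j) ⟨0, by simp⟩

lemma Reg.lt_cn {ω : V d → Bool × (ℕ → ℝ)} (h : Reg ω) {x : V d} {t : ℝ} {j : ℕ} :
    j < cn ω x t ↔ ring ω x j < t :=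
  (mem_iff_lt_ncard (h.fin x t) (fun _ _ hab hb => ((h.mono x).monotone hab).trans_lt hb) j).symm

lemma Reg.tendsto {ω : V d → Bool × (ℕ → ℝ)} (h : Reg ω) (x : V d) :
    Tendsto (ring ω x) atTop atTop := by
  refine tendsto_atTop.2 fun t => eventually_atTop.2 ⟨cn ω x t, fun k hk => ?_⟩
  by_contra h'
  have := h.lt_cn.2 (not_le.1 h')
  omega

lemma reg_ae (p : unitInterval) : ∀ᵐ ω ∂law d p, Reg ω := by
  have h1 : ∀ᵐ ω ∂law d p, ∀ x j, 0 < (ω x).2 j :=
    ae_all_iff.2 fun x => (mp_clock p x).quasiMeasurePreserving.ae kap_pos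
  have h2 : ∀ᵐ ω ∂law d p, ∀ x t, {k | ring ω x k < t}.Finite :=
    ae_all_iff.2 fun x => (mp_clock p x).quasiMeasurePreserving.ae kap_fin
  filter_upwards [h1, h2] with ω a b using ⟨a, b⟩

lemma fd_window {ω : V d → Bool × (ℕ → ℝ)} (h : Reg ω) {a b : ℝ}
    (ha : ∀ x k, ring ω x k < a → Fd ω x (k + 1))
    (hC : ∀ x, (∃ j, ring ω x j ∈ Set.Ico a b) → ∃ C : Set (V d), C.Finite ∧ x ∈ C ∧
      ∀ y ∈ C, ∀ i, (∃ j, ring ω (nb i y) j ∈ Set.Ico a b) → nb i y ∈ C) :
    ∀ x k, ring ω x k < b → Fd ω x (k + 1) := by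
  intro x k hk
  by_contra hcon
  have hka : a ≤ ring ω x k := not_lt.1 fun h' => hcon (ha x k h')
  obtain ⟨C, hCf, hx, hcl⟩ := hC x ⟨k, hka, hk⟩
  set T : Set (V d × ℕ) := {q | q.1 ∈ C ∧ ring ω q.1 q.2 < b ∧ ¬ Fd ω q.1 (q.2 + 1)} with hT
  have hTf : T.Finite := by
    refine (hCf.biUnion fun y _ => (h.fin y b).image (Prod.mk y)).subset ?_
    rintro ⟨y, j⟩ hq
    simp only [Set.mem_iUnion]
    exact ⟨y, hq.1, j, hq.2.1, rfl⟩
  obtain ⟨⟨y, j⟩, hq, hmin⟩ := Set.exists_min_image T (fun q => ring ω q.1 q.2) hTf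
    ⟨(x, k), hx, hk, hcon⟩
  refine hq.2.2 (Fd.succ y j fun i => ?_)
  rcases hc : cn ω (nb i y) (ring ω y j) with _ | l
  · exact Fd.zero _
  · have hl : ring ω (nb i y) l < ring ω y j := h.lt_cn.1 (by omega)
    by_contra hn
    have hla : a ≤ ring ω (nb i y) l := not_lt.1 fun h' => hn (ha _ l h')
    have hlb : ring ω (nb i y) l < b := hl.trans hq.2.1
    exact absurd (hmin (nb i y, l) ⟨hcl y hq.1 i ⟨l, hla, hlb⟩, hlb, hn⟩) (not_le.2 hl)

section Perc

variable {E : Type*} [MeasurableSpace E] (ν : Measure E) [IsProbabilityMeasure ν]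

/-- the `m`-th ancestor -/
def anc (y : V d) (m : ℕ) : V d := ⟨y.1.drop m, y.2.drop m⟩

/-- the cluster of the root -/
def Clu (U : Set E) (ω : V d → E) : Set (V d) := {y | ∀ m, ω (anc y m) ∈ U}

omit [MeasurableSpace E] in
lemma clu_closed {U : Set E} {ω : V d → E} {y : V d} (hy : y ∈ Clu U ω) {i : Fin d}
    (hi : ω (nb i y) ∈ U) : nb i y ∈ Clu U ω := by
  intro m
  by_cases h : y.1.head? = some i
  · have : anc (nb i y) m = anc y (m + 1) := by
      apply Subtype.ext
      simp [anc, nb_val_of_head h]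
    rw [this]; exact hy _
  · cases m with
    | zero => exact hi
    | succ m =>
      have : anc (nb i y) (m + 1) = anc y m := by
        apply Subtype.ext
        simp [anc, nb_val_of_not h]
      rw [this]; exact hy _

lemma clu_finite {U : Set E} (hU : MeasurableSet U) (hd : d * ν U < 1) :
    ∀ᵐ ω ∂(Measure.infinitePi fun _ : V d => ν), (Clu U ω).Finite := by
  set μ := Measure.infinitePi fun _ : V d => ν with hμ
  obtain ⟨S, hS, hSc⟩ : ∃ S : ℕ → Finset (V d), (∀ n y, y ∈ S n ↔ dep y = n) ∧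
      ∀ n, (S n).card ≤ d ^ n := by
    refine ⟨fun n => ((allW d n).subtype (fun l => l.IsChain (· ≠ ·)) :
      Finset {l : List (Fin d) // l.IsChain (· ≠ ·)}),
      fun n y => mem_subtype.trans mem_allW, fun n => ?_⟩
    rw [← card_allW]
    exact (card_subtype _ _).le.trans (card_filter_le _ _)
  have h1 : ∀ n, μ {ω | ∃ y ∈ S n, y ∈ Clu U ω} ≤ (d * ν U) ^ n := by
    intro n
    have hsub : {ω | ∃ y ∈ S n, y ∈ Clu U ω} ⊆
        ⋃ y ∈ S n, Set.pi ((range n).image (anc y) : Finset (V d)) fun _ => U := by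
      rintro ω ⟨y, hy, hc⟩
      simp only [Set.mem_iUnion]
      refine ⟨y, hy, fun z hz => ?_⟩
      obtain ⟨m, -, rfl⟩ := mem_image.1 hz
      exact hc m
    refine (measure_mono hsub).trans ((measure_biUnion_finset_le _ _).trans ?_)
    calc _ ≤ ∑ _y ∈ S n, ν U ^ n := by
          refine sum_le_sum fun y hy => ?_
          rw [hμ, Measure.infinitePi_pi _ (fun _ _ => hU), prod_const, card_image_of_injOn,
            card_range]
          intro a ha b hb hab
          have h2 := congrArg dep hab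
          have h3 := (hS n y).1 hy
          simp only [dep, anc, List.length_drop, coe_range, Set.mem_Iio] at h2 h3 ha hb
          omega
      _ = (S n).card * ν U ^ n := by simp
      _ ≤ (d : ℝ≥0∞) ^ n * ν U ^ n := by
          gcongr
          exact_mod_cast hSc n
      _ = _ := (mul_pow _ _ _).symm
  have h2 : μ {ω | ∀ n, ∃ y ∈ S n, y ∈ Clu U ω} = 0 := by
    refine le_antisymm (ge_of_tendsto' (ENNReal.tendsto_pow_atTop_nhds_zero_of_lt_one hd)
      fun n => le_trans (measure_mono fun ω hω => ?_) (h1 n)) zero_le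
    exact hω n
  filter_upwards [measure_eq_zero_iff_ae_notMem.1 h2] with ω hω
  simp only [not_forall, not_exists, not_and] at hω
  obtain ⟨n, hn⟩ := hω
  refine ((range n).biUnion S).finite_toSet.subset fun y hy => ?_
  simp only [coe_biUnion, coe_range, Set.mem_iUnion, Set.mem_Iio, mem_coe]
  refine ⟨dep y, ?_, (hS _ _).2 rfl⟩
  by_contra hlt
  refine hn (anc y (dep y - n)) ((hS _ _).2 ?_) fun m => ?_
  · simp only [dep, anc, List.length_drop] at hlt ⊢; omega
  · have : anc (anc y (dep y - n)) m = anc y (dep y - n + m) := by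
      apply Subtype.ext
      simp [anc]
    rw [this]; exact hy _

lemma clu_all {U : Set E} (hU : MeasurableSet U) (hd : d * ν U < 1) :
    ∀ᵐ ω ∂(Measure.infinitePi fun _ : V d => ν), ∀ x, ω x ∈ U →
      ∃ C : Set (V d), C.Finite ∧ x ∈ C ∧ ∀ y ∈ C, ∀ i, ω (nb i y) ∈ U → nb i y ∈ C := by
  refine ae_all_iff.2 fun x => ?_
  filter_upwards [(mp_sh ν x).quasiMeasurePreserving.ae (clu_finite ν hU hd)] with ω hω hx
  refine ⟨rho x '' Clu U (sh x ω), hω.image _, ⟨root d, fun m => ?_, rfl⟩, ?_⟩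
  · have : anc (root d) m = root d := by
      apply Subtype.ext
      simp [anc, root]
    rw [this]; exact hx
  · rintro _ ⟨y, hy, rfl⟩ i hi
    rw [← rho_nb] at hi ⊢
    exact ⟨_, clu_closed hy hi, rfl⟩

end Perc

lemma fd_ae (p : unitInterval) : ∀ᵐ ω ∂law d p, ∀ x k, Fd ω x k := by
  have key : ∀ T : ℕ, ∀ᵐ ω ∂law d p, ∀ x k, ring ω x k < T → Fd ω x (k + 1) := by
    intro T
    obtain ⟨ε, hε, hw⟩ := kap_window T (δ := ((d : ℝ≥0∞) + 1)⁻¹) (by simp)
    have h1 : ∀ m : ℕ, ∀ᵐ ω ∂law d p, m * ε ≤ T → ∀ x,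
        (∃ j, ring ω x j ∈ Set.Ico (m * ε) (m * ε + ε)) → ∃ C : Set (V d), C.Finite ∧ x ∈ C ∧
          ∀ y ∈ C, ∀ i, (∃ j, ring ω (nb i y) j ∈ Set.Ico (m * ε) (m * ε + ε)) → nb i y ∈ C := by
      intro m
      by_cases hm : m * ε ≤ T
      · have hU0 : MeasurableSet {τ | ∃ j, rg τ j ∈ Set.Ico (m * ε) (m * ε + ε)} := by
          rw [Set.ofPred_exists]
          exact MeasurableSet.iUnion fun j => measurable_rg j measurableSet_Ico
        have hd : d * nu p (Prod.snd ⁻¹' {τ | ∃ j, rg τ j ∈ Set.Ico (m * ε) (m * ε + ε)}) < 1 := by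
          rw [(mp_snd p).measure_preimage hU0.nullMeasurableSet]
          refine (mul_le_mul_right (hw _ hm) _).trans_lt ?_
          rw [← div_eq_mul_inv, ENNReal.div_lt_iff (by simp) (by simp), one_mul]
          exact ENNReal.lt_add_right (by simp) one_ne_zero
        filter_upwards [clu_all (nu p) (measurable_snd hU0) hd] with ω hω _ using hω
      · simp [hm]
    filter_upwards [ae_all_iff.2 h1, reg_ae p] with ω hω hr
    have h2 : ∀ m : ℕ, ∀ x k, ring ω x k < min (m * ε) T → Fd ω x (k + 1) := by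
      intro m
      induction m with
      | zero =>
        intro x k hk
        have h3 := hr.ring_pos x k
        have h4 := (lt_min_iff.1 hk).1
        simp only [Nat.cast_zero, zero_mul] at h4
        linarith
      | succ m ih =>
        by_cases hm : m * ε ≤ T
        · rw [min_eq_left hm] at ih
          intro x k hk
          refine fd_window hr ih (hω m hm) x k ?_
          have := (lt_min_iff.1 hk).1
          push_cast at this; linarith
        · rw [min_eq_right (not_le.1 hm).le] at ih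
          exact fun x k hk => ih x k (lt_min_iff.1 hk).2
    intro x k hk
    obtain ⟨m, hm⟩ := exists_nat_gt (ring ω x k / ε)
    exact h2 m x k (lt_min ((div_lt_iff₀ hε).1 hm) hk)
  filter_upwards [ae_all_iff.2 key] with ω hω x k
  cases k with
  | zero => exact Fd.zero x
  | succ k =>
    obtain ⟨T, hT⟩ := exists_nat_gt (ring ω x k)
    exact hω T x k hT

end Pool.Agent.P.MP_a7d87e_pr
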